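import Mathlib
import Pool.Agent.Helper616.FG.Defs

namespace Pool.Agent.Helper616.FG

open Set

/-! ### Submodular functions and juntas -/

/-- Submodular set functions. -/
def Submod {E : Type} (h : Set E → ℤ) : Prop :=
  ∀ X Y, h (X ∪ Y) + h (X ∩ Y) ≤ h X + h Y

/-- Finite sums of submodular functions each of which depends on at most `c` elements. -/
inductive Dec (c : ℕ) {E : Type} : (Set E → ℤ) → Prop
  | junta (h : Set E → ℤ) (S : Finset E) (hS : S.card ≤ c) (hsub : Submod h)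
      (hj : ∀ X, h X = h (X ∩ S)) : Dec c h
  | add (f g : Set E → ℤ) (hf : Dec c f) (hg : Dec c g) : Dec c (fun X => f X + g X)

theorem Dec.submod {c : ℕ} {E : Type} {f : Set E → ℤ} (hf : Dec c f) : Submod f := by
  induction hf with
  | junta h S hS hsub hj => exact hsub
  | add f g _ _ ihf ihg =>
    intro X Y
    have h1 := ihf X Y
    have h2 := ihg X Y
    show f (X ∪ Y) + g (X ∪ Y) + (f (X ∩ Y) + g (X ∩ Y)) ≤ f X + g X + (f Y + g Y)
    linarith

/-- A set with visible part `A` and hidden part `Z`. -/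
def mk {α ω : Type} (A : Set α) (Z : Set ω) : Set (α ⊕ ω) := Sum.inl '' A ∪ Sum.inr '' Z

/-- On subsets of `E` the function `r` is the partial minimum, over hidden elements, of a finite sum
of submodular functions each of which depends on at most `c` elements. -/
def Expr (c : ℕ) {α : Type} (E : Set α) (r : Set α → ℤ) : Prop :=
  ∃ (ω : Type) (_ : Finite ω) (f : Set (α ⊕ ω) → ℤ), Dec c f ∧
    ∀ A ⊆ E, (∀ Z, r A ≤ f (mk A Z)) ∧ ∃ Z, f (mk A Z) = r A

/-- The rank function with integer values. -/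
noncomputable def rk {α : Type} (M : Matroid α) (A : Set α) : ℤ := ((M.eRk A).toNat : ℤ)

/-! ### Basic closure properties of `Dec` -/

section dec

variable {E F : Type} {c : ℕ}

theorem mem_mk_inl {α ω : Type} {A : Set α} {Z : Set ω} {a : α} : Sum.inl a ∈ mk A Z ↔ a ∈ A := by
  simp [mk]

theorem mem_mk_inr {α ω : Type} {A : Set α} {Z : Set ω} {z : ω} : Sum.inr z ∈ mk A Z ↔ z ∈ Z := by
  simp [mk]

theorem eq_mk {α ω : Type} (X : Set (α ⊕ ω)) : X = mk (Sum.inl ⁻¹' X) (Sum.inr ⁻¹' X) := by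
  ext x
  rcases x with x | x
  · rw [mem_mk_inl]; rfl
  · rw [mem_mk_inr]; rfl

theorem Dec.const (k : ℤ) : Dec c (fun _ : Set E => k) :=
  Dec.junta _ ∅ (by simp) (fun _ _ => le_rfl) (fun _ => rfl)

open Classical in
/-- The modular function `w · [v ∈ X]`. -/
theorem Dec.single (hc : 1 ≤ c) (v : E) (w : ℤ) : Dec c (fun X : Set E => if v ∈ X then w else 0) := by
  refine Dec.junta _ {v} (by simpa using hc) (fun X Y => ?_) (fun X => ?_)
  · by_cases h1 : v ∈ X <;> by_cases h2 : v ∈ Y <;> simp [h1, h2]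
  · simp

open Classical in
/-- The penalty `w · [u ∈ X, v ∉ X]`. -/
theorem Dec.pen (hc : 2 ≤ c) (u v : E) (w : ℤ) (hw : 0 ≤ w) :
    Dec c (fun X : Set E => if u ∈ X ∧ v ∉ X then w else 0) := by
  refine Dec.junta _ {u, v} (le_trans Finset.card_le_two hc) (fun X Y => ?_) (fun X => ?_)
  · by_cases h1 : u ∈ X <;> by_cases h2 : u ∈ Y <;> by_cases h3 : v ∈ X <;> by_cases h4 : v ∈ Y <;>
      simp [h1, h2, h3, h4] <;> omega
  · simp

theorem Dec.sum {ι : Type} (I : Finset ι) (f : ι → Set E → ℤ) (hf : ∀ i ∈ I, Dec c (f i)) :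
    Dec c (fun X => ∑ i ∈ I, f i X) := by
  classical
  induction I using Finset.induction_on with
  | empty => simpa using Dec.const (E := E) (c := c) 0
  | insert a s ha ih =>
    have h1 := Dec.add _ _ (hf a (Finset.mem_insert_self a s))
      (ih fun i hi => hf i (Finset.mem_insert_of_mem hi))
    have e : (fun X => ∑ i ∈ insert a s, f i X) = fun X => f a X + ∑ i ∈ s, f i X := by
      funext X; rw [Finset.sum_insert ha]
    rw [e]; exact h1

/-- Substitution: each element `e` is replaced by the constant true (if `b e`), a new element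
`σ e`, or the constant false. -/
theorem Dec.subst {f : Set E → ℤ} (hf : Dec c f) (σ : E → Option F) (b : E → Prop) :
    Dec c (fun X : Set F => f {e | b e ∨ ∃ x ∈ X, σ e = some x}) := by
  classical
  induction hf with
  | junta h S hS hsub hj =>
    refine Dec.junta _ (S.biUnion fun e => (σ e).toFinset) ?_ (fun X Y => ?_) (fun X => ?_)
    · refine le_trans (Finset.card_biUnion_le) (le_trans ?_ hS)
      rw [Finset.card_eq_sum_ones]
      refine Finset.sum_le_sum fun e _ => ?_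
      cases σ e <;> simp
    · have e1 : {e | b e ∨ ∃ x ∈ X ∪ Y, σ e = some x} =
          {e | b e ∨ ∃ x ∈ X, σ e = some x} ∪ {e | b e ∨ ∃ x ∈ Y, σ e = some x} := by
        ext e
        simp only [mem_ofPred_eq, mem_union]
        constructor
        · rintro (h | ⟨x, hx | hx, hs⟩)
          · exact Or.inl (Or.inl h)
          · exact Or.inl (Or.inr ⟨x, hx, hs⟩)
          · exact Or.inr (Or.inr ⟨x, hx, hs⟩)
        · rintro ((h | ⟨x, hx, hs⟩) | (h | ⟨x, hx, hs⟩))
          · exact Or.inl h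
          · exact Or.inr ⟨x, Or.inl hx, hs⟩
          · exact Or.inl h
          · exact Or.inr ⟨x, Or.inr hx, hs⟩
      have e2 : {e | b e ∨ ∃ x ∈ X ∩ Y, σ e = some x} =
          {e | b e ∨ ∃ x ∈ X, σ e = some x} ∩ {e | b e ∨ ∃ x ∈ Y, σ e = some x} := by
        ext e
        simp only [mem_ofPred_eq, mem_inter_iff]
        constructor
        · rintro (h | ⟨x, ⟨hx, hy⟩, hs⟩)
          · exact ⟨Or.inl h, Or.inl h⟩
          · exact ⟨Or.inr ⟨x, hx, hs⟩, Or.inr ⟨x, hy, hs⟩⟩
        · rintro ⟨h | ⟨x, hx, hs⟩, h' | ⟨y, hy, hs'⟩⟩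
          · exact Or.inl h
          · exact Or.inl h
          · exact Or.inl h'
          · rw [hs] at hs'
            cases hs'
            exact Or.inr ⟨x, ⟨hx, hy⟩, hs⟩
      show h {e | b e ∨ ∃ x ∈ X ∪ Y, σ e = some x} + h {e | b e ∨ ∃ x ∈ X ∩ Y, σ e = some x} ≤ _
      rw [e1, e2]
      exact hsub _ _
    · show h _ = h _
      rw [hj, hj {e | b e ∨ ∃ x ∈ X ∩ _, σ e = some x}]
      congr 1
      ext e
      simp only [mem_ofPred_eq, mem_inter_iff, Finset.mem_coe, Finset.mem_biUnion,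
        Option.mem_toFinset, Option.mem_def]
      constructor
      · rintro ⟨h | ⟨x, hx, hs⟩, he⟩
        · exact ⟨Or.inl h, he⟩
        · exact ⟨Or.inr ⟨x, ⟨hx, e, he, hs⟩, hs⟩, he⟩
      · rintro ⟨h | ⟨x, ⟨hx, _⟩, hs⟩, he⟩
        · exact ⟨Or.inl h, he⟩
        · exact ⟨Or.inr ⟨x, hx, hs⟩, he⟩
  | add f g _ _ ihf ihg => exact Dec.add _ _ ihf ihg

theorem Dec.compl {f : Set E → ℤ} (hf : Dec c f) : Dec c (fun X => f Xᶜ) := by
  induction hf with
  | junta h S hS hsub hj =>
    refine Dec.junta _ S hS (fun X Y => ?_) (fun X => ?_)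
    · have := hsub Xᶜ Yᶜ
      rw [← compl_inter, ← compl_union] at this
      show h (X ∪ Y)ᶜ + h (X ∩ Y)ᶜ ≤ h Xᶜ + h Yᶜ
      linarith
    · show h Xᶜ = h (X ∩ S)ᶜ
      rw [hj, hj (X ∩ S)ᶜ]
      congr 1
      ext e
      simp only [mem_inter_iff, mem_compl_iff]
      tauto
  | add f g _ _ ihf ihg => exact Dec.add _ _ ihf ihg

end dec

/-! ### Uncrossing -/

section uncross

variable {E : Type}

/-- Indicator function of a set. -/
noncomputable def ind (X : Set E) (x : E) : ℕ := by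
  classical exact if x ∈ X then 1 else 0

theorem ind_mem {X : Set E} {x : E} (h : x ∈ X) : ind X x = 1 := if_pos h

theorem ind_not_mem {X : Set E} {x : E} (h : x ∉ X) : ind X x = 0 := if_neg h

theorem ind_le (X : Set E) (x : E) : ind X x ≤ 1 := by
  by_cases h : x ∈ X
  · rw [ind_mem h]
  · rw [ind_not_mem h]; exact Nat.zero_le _

/-- Sum of `h` over the level sets of `μ`. -/
def lev (h : Set E → ℤ) (μ : E → ℕ) (N : ℕ) : ℤ :=
  ∑ t ∈ Finset.range N, h {x | t < μ x}

open Classical in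
theorem lev_one {h : Set E → ℤ} (hsub : Submod h) (h0 : h ∅ = 0) (μ : E → ℕ) (X : Set E) (N : ℕ)
    (hN : ∀ x, μ x < N) :
    lev h (fun x => μ x + ind X x) N ≤ h X + lev h μ N := by
  have key : ∀ K, lev h (fun x => μ x + ind X x) K + h (X ∩ {x | K ≤ μ x}) ≤
      h X + lev h μ K := by
    intro K
    induction K with
    | zero => simp [lev]
    | succ K ih =>
      have h1 := hsub {x | K < μ x} (X ∩ {x | K ≤ μ x})
      have e1 : {x | K < μ x} ∪ X ∩ {x | K ≤ μ x} =
          {x | K < μ x + ind X x} := by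
        ext x
        simp only [mem_union, mem_ofPred_eq, mem_inter_iff]
        by_cases hx : x ∈ X
        · rw [ind_mem hx]; simp only [hx, true_and]; omega
        · rw [ind_not_mem hx]; simp only [hx, false_and, or_false, add_zero]
      have e2 : {x | K < μ x} ∩ (X ∩ {x | K ≤ μ x}) = X ∩ {x | K + 1 ≤ μ x} := by
        ext x
        simp only [mem_ofPred_eq, mem_inter_iff]
        constructor
        · rintro ⟨h1, h2, h3⟩; exact ⟨h2, h1⟩
        · rintro ⟨h1, h2⟩; exact ⟨h2, h1, by omega⟩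
      rw [e1, e2] at h1
      unfold lev at ih ⊢
      rw [Finset.sum_range_succ, Finset.sum_range_succ]
      linarith
  have h2 := key N
  have e3 : X ∩ {x | N ≤ μ x} = ∅ := by
    ext x
    simp only [mem_ofPred_eq, mem_inter_iff, mem_empty_iff_false, iff_false, not_and, not_le]
    intro _; exact hN x
  rw [e3, h0] at h2
  linarith

open Classical in
theorem lev_copies {h : Set E → ℤ} (hsub : Submod h) (h0 : h ∅ = 0) (μ : E → ℕ) (X : Set E)
    (N w : ℕ) (hN : ∀ x, μ x + w < N) :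
    lev h (fun x => μ x + w * ind X x) N ≤ w * h X + lev h μ N := by
  induction w with
  | zero => simp
  | succ w ih =>
    have h1 := ih (fun x => by have := hN x; omega)
    have h2 := lev_one hsub h0 (fun x => μ x + w * ind X x) X N (fun x => by
      have := hN x
      have h3 : w * ind X x ≤ w * 1 := Nat.mul_le_mul_left _ (ind_le X x)
      show μ x + w * ind X x < N
      omega)
    have e : (fun x => μ x + (w + 1) * ind X x) =
        fun x => (μ x + w * ind X x) + ind X x := by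
      funext x; ring
    rw [e]
    push_cast
    linarith

open Classical in
/-- Uncrossing a weighted family of sets into its level sets. -/
theorem lev_sum {h : Set E → ℤ} (hsub : Submod h) (h0 : h ∅ = 0) {ι : Type} (I : Finset ι)
    (X : ι → Set E) (w : ι → ℕ) (N : ℕ) (hN : ∑ i ∈ I, w i < N) :
    lev h (fun x => ∑ i ∈ I, w i * ind (X i) x) N ≤ ∑ i ∈ I, (w i : ℤ) * h (X i) := by
  induction I using Finset.induction_on with
  | empty =>
    simp only [Finset.sum_empty]
    unfold lev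
    refine le_of_eq (Finset.sum_eq_zero fun t _ => ?_)
    have : {x : E | t < 0} = ∅ := by ext x; simp
    rw [this, h0]
  | insert a s ha ih =>
    rw [Finset.sum_insert ha] at hN
    have h1 := ih (by omega)
    have h2 := lev_copies hsub h0 (fun x => ∑ i ∈ s, w i * ind (X i) x) (X a) N (w a)
      (fun x => by
        have : ∑ i ∈ s, w i * ind (X i) x ≤ ∑ i ∈ s, w i := by
          refine Finset.sum_le_sum fun i _ => ?_
          calc w i * ind (X i) x ≤ w i * 1 := Nat.mul_le_mul_left _ (ind_le _ _)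
            _ = w i := mul_one _
        show ∑ i ∈ s, w i * ind (X i) x + w a < N
        omega)
    have e : (fun x => ∑ i ∈ insert a s, w i * ind (X i) x) =
        fun x => (∑ i ∈ s, w i * ind (X i) x) + w a * ind (X a) x := by
      funext x; rw [Finset.sum_insert ha]; ring
    rw [e, Finset.sum_insert ha]
    linarith

end uncross

/-! ### The counting inequality -/

section core

variable {E P Λ : Type} [Fintype P] [Fintype Λ]

/-- The multiplicity function. -/
noncomputable def mult (c : ℕ) (Dp : P → Set E) (Dl : Λ → Set E) (x : E) : ℕ := by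
  classical exact if ∃ v, x ∈ Dp v then c else (Finset.univ.filter fun l => x ∈ Dl l).card

open Classical in
theorem core_junta (c : ℕ) (inc : Λ → Finset P) (Dp : P → Set E) (Dl : Λ → Set E)
    (h1 : ∀ u v, u ≠ v → Disjoint (Dp u) (Dp v))
    (h2 : ∀ l, ∀ v ∈ inc l, Dp v ⊆ Dl l)
    (h3 : ∀ l, ∀ v ∉ inc l, Disjoint (Dl l) (Dp v))
    (h4 : ∀ l l', l ≠ l' → ∀ v ∈ inc l, v ∈ inc l' → Dl l ∩ Dl l' ⊆ Dp v)
    (h : Set E → ℤ) (S : Finset E) (hS : S.card ≤ c) (hsub : Submod h)
    (hj : ∀ X, h X = h (X ∩ S)) (h0 : h ∅ = 0) :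
    ∑ l, ∑ v ∈ inc l, h (Dp v) +
      lev h (mult c Dp Dl) (Fintype.card Λ + c * Fintype.card P + 1) ≤
      ∑ l, h (Dl l) + c * ∑ v, h (Dp v) := by
  set pure : Λ → Prop := fun l => ∃ v ∈ inc l, Dl l ∩ S ⊆ Dp v with hpure
  set NN : Finset Λ := Finset.univ.filter fun l => ¬ pure l with hNN
  set n : P → ℕ := fun v => (NN.filter fun l => v ∈ inc l).card with hn
  -- pure lines
  have hp : ∀ l, pure l → h (Dl l) = ∑ v ∈ inc l, h (Dp v) := by
    rintro l ⟨v, hv, hsubs⟩
    rw [Finset.sum_eq_single_of_mem v hv]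
    · rw [hj (Dl l), hj (Dp v)]
      congr 1
      ext x
      constructor
      · rintro ⟨hx1, hx2⟩; exact ⟨hsubs ⟨hx1, hx2⟩, hx2⟩
      · rintro ⟨hx1, hx2⟩; exact ⟨h2 l v hv hx1, hx2⟩
    · intro u hu huv
      rw [hj (Dp u)]
      have : Dp u ∩ S = ∅ := by
        ext x
        simp only [mem_inter_iff, mem_empty_iff_false, iff_false, not_and]
        intro hx1 hx2
        exact Set.disjoint_left.1 (h1 u v huv) hx1 (hsubs ⟨h2 l u hu hx1, hx2⟩)
      rw [this, h0]
  -- few non-pure lines through a point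
  have hn_le : ∀ v, n v ≤ c := by
    intro v
    refine le_trans ?_ hS
    refine Finset.card_le_card_of_forall_subsingleton (fun l x => x ∈ Dl l ∧ x ∉ Dp v) ?_ ?_
    · intro l hl
      rw [Finset.mem_filter, hNN, Finset.mem_filter] at hl
      obtain ⟨⟨_, hl1⟩, hl2⟩ := hl
      have : ¬ Dl l ∩ S ⊆ Dp v := fun hcon => hl1 ⟨v, hl2, hcon⟩
      obtain ⟨x, hx1, hx2⟩ := Set.not_subset.1 this
      exact ⟨x, hx1.2, hx1.1, hx2⟩
    · rintro x _ l ⟨hl, hxl, hxv⟩ l' ⟨hl', hxl', _⟩
      by_contra hne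
      rw [Finset.mem_filter] at hl hl'
      exact hxv (h4 l l' hne v hl.2 hl'.2 ⟨hxl, hxl'⟩)
  -- the weighted family
  have hN : ∑ i : Λ ⊕ P, Sum.elim (fun l => if l ∈ NN then 1 else 0) (fun v => c - n v) i <
      Fintype.card Λ + c * Fintype.card P + 1 := by
    rw [Fintype.sum_sum_type]
    simp only [Sum.elim_inl, Sum.elim_inr]
    have e1 : ∑ l : Λ, (if l ∈ NN then 1 else 0) ≤ Fintype.card Λ := by
      calc ∑ l : Λ, (if l ∈ NN then 1 else 0) ≤ ∑ l : Λ, 1 :=
            Finset.sum_le_sum fun l _ => by split_ifs <;> simp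
        _ = Fintype.card Λ := by simp
    have e2 : ∑ v : P, (c - n v) ≤ c * Fintype.card P := by
      calc ∑ v : P, (c - n v) ≤ ∑ v : P, c := Finset.sum_le_sum fun v _ => Nat.sub_le _ _
        _ = c * Fintype.card P := by simp [mul_comm]
    omega
  have key := lev_sum hsub h0 (Finset.univ : Finset (Λ ⊕ P)) (Sum.elim Dl Dp)
    (Sum.elim (fun l => if l ∈ NN then 1 else 0) (fun v => c - n v)) _ hN
  -- the level sets agree on `S`
  have hlev : lev h (mult c Dp Dl) (Fintype.card Λ + c * Fintype.card P + 1) =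
      lev h (fun x => ∑ i : Λ ⊕ P, Sum.elim (fun l => if l ∈ NN then 1 else 0)
        (fun v => c - n v) i * ind (Sum.elim Dl Dp i) x)
        (Fintype.card Λ + c * Fintype.card P + 1) := by
    have hag : ∀ x ∈ S, mult c Dp Dl x = ∑ i : Λ ⊕ P, Sum.elim (fun l => if l ∈ NN then 1 else 0)
        (fun v => c - n v) i * ind (Sum.elim Dl Dp i) x := by
      intro x hx
      rw [Fintype.sum_sum_type]
      simp only [Sum.elim_inl, Sum.elim_inr]
      have e1 : ∑ l : Λ, (if l ∈ NN then 1 else 0) * ind (Dl l) x =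
          (NN.filter fun l => x ∈ Dl l).card := by
        rw [Finset.card_filter, ← Finset.sum_filter_add_sum_filter_not Finset.univ (· ∈ NN)]
        rw [Finset.sum_eq_zero (s := Finset.univ.filter fun l => ¬ l ∈ NN), add_zero]
        · rw [Finset.filter_mem_eq_inter, Finset.univ_inter]
          refine Finset.sum_congr rfl fun l hl => ?_
          rw [if_pos hl, one_mul]
          by_cases hxl : x ∈ Dl l
          · rw [ind_mem hxl, if_pos hxl]
          · rw [ind_not_mem hxl, if_neg hxl]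
        · intro l hl
          rw [Finset.mem_filter] at hl
          rw [if_neg hl.2, zero_mul]
      rw [e1]
      unfold mult
      by_cases hxv : ∃ v, x ∈ Dp v
      · rw [if_pos hxv]
        obtain ⟨v, hv⟩ := hxv
        rw [Finset.sum_eq_single v]
        · rw [ind_mem hv, mul_one]
          have e2 : (NN.filter fun l => x ∈ Dl l) = NN.filter fun l => v ∈ inc l := by
            refine Finset.filter_congr fun l _ => ?_
            constructor
            · intro hxl
              by_contra hvl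
              exact Set.disjoint_left.1 (h3 l v hvl) hxl hv
            · intro hvl; exact h2 l v hvl hv
          rw [e2]
          have := hn_le v
          show c = n v + (c - n v)
          omega
        · intro u _ huv
          rw [ind_not_mem, mul_zero]
          intro hxu
          exact Set.disjoint_left.1 (h1 u v huv) hxu hv
        · intro hcon; exact absurd (Finset.mem_univ v) hcon
      · rw [if_neg hxv]
        rw [Finset.sum_eq_zero (f := fun v => (c - n v) * ind (Dp v) x), add_zero]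
        · congr 1
          ext l
          rw [Finset.mem_filter, Finset.mem_filter, hNN, Finset.mem_filter]
          constructor
          · rintro ⟨_, hxl⟩
            refine ⟨⟨Finset.mem_univ _, ?_⟩, hxl⟩
            rintro ⟨v, hv, hsubs⟩
            exact hxv ⟨v, hsubs ⟨hxl, hx⟩⟩
          · rintro ⟨_, hxl⟩; exact ⟨Finset.mem_univ _, hxl⟩
        · intro v _
          rw [ind_not_mem, mul_zero]
          intro hxv'; exact hxv ⟨v, hxv'⟩
    unfold lev
    refine Finset.sum_congr rfl fun t _ => ?_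
    rw [hj, hj {x | t < ∑ i : Λ ⊕ P, _}]
    congr 1
    ext x
    constructor
    · rintro ⟨hx1, hx2⟩
      refine ⟨?_, hx2⟩
      have := hag x hx2
      have h5 : t < mult c Dp Dl x := hx1
      rw [this] at h5
      exact h5
    · rintro ⟨hx1, hx2⟩
      refine ⟨?_, hx2⟩
      have := hag x hx2
      show t < mult c Dp Dl x
      rw [this]
      exact hx1
  rw [hlev]
  rw [Fintype.sum_sum_type] at key
  simp only [Sum.elim_inl, Sum.elim_inr] at key
  -- bookkeeping
  have b1 : ∑ l, ∑ v ∈ inc l, h (Dp v) =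
      ∑ l ∈ Finset.univ.filter pure, h (Dl l) + ∑ v, (n v : ℤ) * h (Dp v) := by
    rw [← Finset.sum_filter_add_sum_filter_not Finset.univ pure]
    congr 1
    · exact Finset.sum_congr rfl fun l hl => (hp l (Finset.mem_filter.1 hl).2).symm
    · have : ∀ l ∈ NN, ∑ v ∈ inc l, h (Dp v) = ∑ v, if v ∈ inc l then h (Dp v) else 0 := by
        intro l _
        rw [Finset.sum_ite_mem, Finset.univ_inter]
      rw [← hNN, Finset.sum_congr rfl this, Finset.sum_comm]
      refine Finset.sum_congr rfl fun v _ => ?_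
      rw [← Finset.sum_filter, Finset.sum_const, nsmul_eq_mul]
  have b2 : ∑ l, h (Dl l) = ∑ l ∈ Finset.univ.filter pure, h (Dl l) + ∑ l ∈ NN, h (Dl l) := by
    rw [← Finset.sum_filter_add_sum_filter_not Finset.univ pure]
  have b3 : ∑ l : Λ, (((if l ∈ NN then 1 else 0 : ℕ)) : ℤ) * h (Dl l) = ∑ l ∈ NN, h (Dl l) := by
    rw [← Finset.univ_inter NN, ← Finset.sum_ite_mem, Finset.univ_inter]
    refine Finset.sum_congr rfl fun l _ => ?_
    split_ifs <;> simp
  have b4 : ∑ v, ((c - n v : ℕ) : ℤ) * h (Dp v) = c * ∑ v, h (Dp v) - ∑ v, (n v : ℤ) * h (Dp v) := by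
    rw [Finset.mul_sum, ← Finset.sum_sub_distrib]
    refine Finset.sum_congr rfl fun v _ => ?_
    rw [Nat.cast_sub (hn_le v)]; ring
  rw [b3, b4] at key
  rw [b1, b2]
  linarith

end core

section minimizers

variable {α ω : Type}

theorem mk_union (A B : Set α) (Y Z : Set ω) : mk A Y ∪ mk B Z = mk (A ∪ B) (Y ∪ Z) := by
  ext x
  rcases x with x | x
  · simp only [mem_union, mem_mk_inl]
  · simp only [mem_union, mem_mk_inr]

theorem mk_inter (A B : Set α) (Y Z : Set ω) : mk A Y ∩ mk B Z = mk (A ∩ B) (Y ∩ Z) := by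
  ext x
  rcases x with x | x
  · simp only [mem_inter_iff, mem_mk_inl]
  · simp only [mem_inter_iff, mem_mk_inr]

/-- There is a largest minimiser. -/
theorem exists_max [Finite ω] {f : Set (α ⊕ ω) → ℤ} (hf : Submod f) {E : Set α} {r : Set α → ℤ}
    (hr : ∀ A ⊆ E, (∀ Z, r A ≤ f (mk A Z)) ∧ ∃ Z, f (mk A Z) = r A) (A : Set α) :
    ∃ Z : Set ω, A ⊆ E → f (mk A Z) = r A ∧ ∀ Z', f (mk A Z') = r A → Z' ⊆ Z := by
  by_cases hA : A ⊆ E
  swap
  · exact ⟨∅, fun h => absurd h hA⟩
  obtain ⟨Z, hZ⟩ := (Set.toFinite {Z : Set ω | f (mk A Z) = r A}).exists_maximal (hr A hA).2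
  refine ⟨Z, fun _ => ⟨hZ.prop, fun Z' hZ' => ?_⟩⟩
  have h1 := hf (mk A Z) (mk A Z')
  rw [mk_union, mk_inter, union_self, inter_self] at h1
  have h2 := (hr A hA).1 (Z ∪ Z')
  have h3 := (hr A hA).1 (Z ∩ Z')
  have h4 : f (mk A Z) = r A := hZ.prop
  have h5 : f (mk A (Z ∪ Z')) = r A := by linarith
  have h6 : Z ∪ Z' ⊆ Z := hZ.le_of_ge (y := Z ∪ Z') h5 subset_union_left
  exact subset_union_right.trans h6

theorem max_cross {f : Set (α ⊕ ω) → ℤ} (hf : Submod f) {E : Set α} {r : Set α → ℤ}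
    (hr : ∀ A ⊆ E, (∀ Z, r A ≤ f (mk A Z)) ∧ ∃ Z, f (mk A Z) = r A) {z : Set α → Set ω}
    (hz : ∀ A ⊆ E, f (mk A (z A)) = r A ∧ ∀ Z', f (mk A Z') = r A → Z' ⊆ z A)
    {A B : Set α} (hA : A ⊆ E) (hB : B ⊆ E) (hAB : r A + r B ≤ r (A ∪ B) + r (A ∩ B)) :
    z A ∩ z B ⊆ z (A ∩ B) := by
  have h1 := hf (mk A (z A)) (mk B (z B))
  rw [mk_union, mk_inter] at h1
  have h2 := (hr (A ∪ B) (union_subset hA hB)).1 (z A ∪ z B)
  have h3 := (hr (A ∩ B) (inter_subset_left.trans hA)).1 (z A ∩ z B)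
  have h4 := (hz A hA).1
  have h5 := (hz B hB).1
  exact (hz (A ∩ B) (inter_subset_left.trans hA)).2 _ (by linarith)

theorem max_mono {f : Set (α ⊕ ω) → ℤ} (hf : Submod f) {E : Set α} {r : Set α → ℤ}
    (hr : ∀ A ⊆ E, (∀ Z, r A ≤ f (mk A Z)) ∧ ∃ Z, f (mk A Z) = r A) {z : Set α → Set ω}
    (hz : ∀ A ⊆ E, f (mk A (z A)) = r A ∧ ∀ Z', f (mk A Z') = r A → Z' ⊆ z A)
    {A B : Set α} (hAB : A ⊆ B) (hB : B ⊆ E) : z A ⊆ z B := by
  have h1 := hf (mk A (z A)) (mk B (z B))
  rw [mk_union, mk_inter, union_eq_self_of_subset_left hAB, inter_eq_self_of_subset_left hAB] at h1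
  have h2 := (hr B hB).1 (z A ∪ z B)
  have h3 := (hr A (hAB.trans hB)).1 (z A ∩ z B)
  have h4 := (hz A (hAB.trans hB)).1
  have h5 := (hz B hB).1
  exact subset_union_left.trans ((hz B hB).2 _ (by linarith))

end minimizers

section bound

theorem lev_add_fun {E : Type} (f g : Set E → ℤ) (μ : E → ℕ) (N : ℕ) :
    lev (fun X => f X + g X) μ N = lev f μ N + lev g μ N := by
  unfold lev; rw [Finset.sum_add_distrib]

variable {E P Λ : Type} [Fintype P] [Fintype Λ]

/-- The counting inequality for sums of juntas, normalised at a set `T`. -/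
theorem core_dec (c : ℕ) (inc : Λ → Finset P) (Dp : P → Set E) (Dl : Λ → Set E)
    (h1 : ∀ u v, u ≠ v → Disjoint (Dp u) (Dp v))
    (h2 : ∀ l, ∀ v ∈ inc l, Dp v ⊆ Dl l)
    (h3 : ∀ l, ∀ v ∉ inc l, Disjoint (Dl l) (Dp v))
    (h4 : ∀ l l', l ≠ l' → ∀ v ∈ inc l, v ∈ inc l' → Dl l ∩ Dl l' ⊆ Dp v) (T : Set E)
    {f : Set E → ℤ} (hf : Dec c f) :
    ∑ l, ∑ v ∈ inc l, (f (Dp v ∪ T) - f T) +
      lev (fun X => f (X ∪ T) - f T) (mult c Dp Dl) (Fintype.card Λ + c * Fintype.card P + 1) ≤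
      ∑ l, (f (Dl l ∪ T) - f T) + c * ∑ v, (f (Dp v ∪ T) - f T) := by
  induction hf with
  | junta h S hS hsub hj =>
    refine core_junta c inc Dp Dl h1 h2 h3 h4 (fun X => h (X ∪ T) - h T) S hS ?_ ?_ ?_
    · intro X Y
      have h5 := hsub (X ∪ T) (Y ∪ T)
      have e1 : X ∪ T ∪ (Y ∪ T) = X ∪ Y ∪ T := by ext x; simp only [mem_union]; tauto
      have e2 : (X ∪ T) ∩ (Y ∪ T) = X ∩ Y ∪ T := by
        ext x; simp only [mem_union, mem_inter_iff]; tauto
      rw [e1, e2] at h5
      show h (X ∪ Y ∪ T) - h T + (h (X ∩ Y ∪ T) - h T) ≤ h (X ∪ T) - h T + (h (Y ∪ T) - h T)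
      linarith
    · intro X
      show h (X ∪ T) - h T = h (X ∩ S ∪ T) - h T
      rw [hj (X ∪ T), hj (X ∩ S ∪ T)]
      congr 2
      ext x; simp only [mem_union, mem_inter_iff]; tauto
    · show h (∅ ∪ T) - h T = 0
      rw [empty_union, sub_self]
  | add f g _ _ ihf ihg =>
    have e : (fun X => f (X ∪ T) + g (X ∪ T) - (f T + g T)) =
        fun X => (f (X ∪ T) - f T) + (g (X ∪ T) - g T) := by funext X; ring
    show ∑ l, ∑ v ∈ inc l, (f (Dp v ∪ T) + g (Dp v ∪ T) - (f T + g T)) +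
      lev (fun X => f (X ∪ T) + g (X ∪ T) - (f T + g T)) (mult c Dp Dl) _ ≤
      ∑ l, (f (Dl l ∪ T) + g (Dl l ∪ T) - (f T + g T)) +
        c * ∑ v, (f (Dp v ∪ T) + g (Dp v ∪ T) - (f T + g T))
    rw [e, lev_add_fun]
    have e2 : ∀ X, f (X ∪ T) + g (X ∪ T) - (f T + g T) = (f (X ∪ T) - f T) + (g (X ∪ T) - g T) :=
      fun X => by ring
    simp only [e2, Finset.sum_add_distrib, mul_add]
    linarith

end bound

/-- A rank 3 linear space whose rank function is expressible with arity `c` has at most `c` times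
as many three-point lines as points. -/
theorem card_lines_le {α Λ : Type} [Fintype α] [Fintype Λ] {c : ℕ} {r : Set α → ℤ}
    (hE : Expr c univ r) (line : Λ → Finset α) (h0 : r ∅ = 0) (hpos : ∀ A, 0 ≤ r A)
    (h1 : ∀ v, r {v} = 1) (h2 : ∀ u v, u ≠ v → r {u, v} = 2) (hl : ∀ l, (line l).card = 3)
    (hlr : ∀ l, r (line l) = 2) (hlv : ∀ l, ∀ v ∉ line l, r (line l ∪ {v}) = 3)
    (hll : ∀ l l', l ≠ l' → ∀ v ∈ line l, v ∈ line l' →
      r (line l ∪ line l') = 3 ∧ (line l : Set α) ∩ line l' = {v}) :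
    Fintype.card Λ ≤ c * Fintype.card α := by
  obtain ⟨ω, hω, f, hf, hr⟩ := hE
  have hsub := hf.submod
  choose z hz' using exists_max hsub hr
  have hz : ∀ A ⊆ univ, f (mk A (z A)) = r A ∧ ∀ Z', f (mk A Z') = r A → Z' ⊆ z A :=
    fun A hA => hz' A hA
  set T : Set (α ⊕ ω) := mk ∅ (z ∅) with hT
  have hfT : f T = 0 := by rw [hT, (hz ∅ (subset_univ _)).1, h0]
  have hmono0 : ∀ A, z ∅ ⊆ z A := fun A => max_mono hsub hr hz (empty_subset A) (subset_univ _)
  -- the sets
  set D : Set α → Set (α ⊕ ω) := fun A => mk A (z A \ z ∅) with hD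
  have hDT : ∀ A, D A ∪ T = mk A (z A) := by
    intro A
    rw [hD, hT, mk_union, union_empty, sdiff_union_of_subset (hmono0 A)]
  have hfD : ∀ A, f (D A ∪ T) - f T = r A := by
    intro A; rw [hDT, (hz A (subset_univ _)).1, hfT, sub_zero]
  have hdisj : ∀ A B : Set α, Disjoint A B → r A + r B ≤ r (A ∪ B) → Disjoint (D A) (D B) := by
    intro A B hAB hrAB
    rw [Set.disjoint_left]
    have hz2 : z A ∩ z B ⊆ z ∅ := by
      have := max_cross hsub hr hz (subset_univ A) (subset_univ B)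
        (by rw [hAB.inter_eq, h0]; linarith)
      rwa [hAB.inter_eq] at this
    rintro (x | x) hx hy
    · rw [hD, mem_mk_inl] at hx hy
      exact Set.disjoint_left.1 hAB hx hy
    · rw [hD, mem_mk_inr] at hx hy
      exact hx.2 (hz2 ⟨hx.1, hy.1⟩)
  have key := core_dec c line (fun v => D {v}) (fun l => D (line l)) ?_ ?_ ?_ ?_ T hf
  · simp only [hfD, h1, hlr] at key
    have e1 : ∑ l : Λ, ∑ v ∈ line l, (1 : ℤ) = 3 * Fintype.card Λ := by
      have : ∀ l ∈ (Finset.univ : Finset Λ), ∑ v ∈ line l, (1 : ℤ) = 3 := by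
        intro l _
        rw [Finset.sum_const, hl]; norm_num
      rw [Finset.sum_congr rfl this, Finset.sum_const, Finset.card_univ]
      simp [mul_comm]
    have e2 : ∑ l : Λ, (2 : ℤ) = 2 * Fintype.card Λ := by
      rw [Finset.sum_const, Finset.card_univ]; simp [mul_comm]
    have e3 : ∑ v : α, (1 : ℤ) = Fintype.card α := by
      rw [Finset.sum_const, Finset.card_univ]; simp
    have e4 : 0 ≤ lev (fun X => f (X ∪ T) - f T) (mult c (fun v => D {v}) fun l => D (line l))
        (Fintype.card Λ + c * Fintype.card α + 1) := by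
      unfold lev
      refine Finset.sum_nonneg fun t _ => ?_
      show 0 ≤ f (_ ∪ T) - f T
      rw [hfT, sub_zero]
      rw [eq_mk (_ ∪ T)]
      exact (hpos _).trans ((hr _ (subset_univ _)).1 _)
    rw [e1, e2, e3] at key
    have : (Fintype.card Λ : ℤ) ≤ c * Fintype.card α := by linarith
    exact_mod_cast this
  · intro u v huv
    refine hdisj _ _ (by simpa using huv) ?_
    rw [h1, h1, singleton_union, h2 u v huv]; norm_num
  · intro l v hv
    have hsubs : z {v} ⊆ z (line l) := max_mono hsub hr hz (by simpa using hv) (subset_univ _)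
    rintro (x | x) hx
    · simp only [hD, mem_mk_inl] at hx ⊢
      rw [mem_singleton_iff] at hx
      rw [hx]; exact hv
    · simp only [hD, mem_mk_inr] at hx ⊢
      exact ⟨hsubs hx.1, hx.2⟩
  · intro l v hv
    refine hdisj _ _ (by simpa using hv) ?_
    rw [h1, hlr, hlv l v hv]; norm_num
  · intro l l' hne v hv hv'
    obtain ⟨h5, h6⟩ := hll l l' hne v hv hv'
    have hz2 : z (line l) ∩ z (line l') ⊆ z {v} := by
      have := max_cross hsub hr hz (subset_univ (line l : Set α)) (subset_univ (line l' : Set α))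
        (by rw [h6, h5, hlr, hlr, h1]; norm_num)
      rwa [h6] at this
    rintro (x | x) ⟨hx, hy⟩
    · simp only [hD, mem_mk_inl] at hx hy ⊢
      rw [← h6]; exact ⟨hx, hy⟩
    · simp only [hD, mem_mk_inr] at hx hy ⊢
      exact ⟨hz2 ⟨hx.1, hy.1⟩, hx.2⟩

section rank

variable {α : Type} {M : Matroid α}

theorem rk_cast (hM : M.E.Finite) (A : Set α) : M.eRk A = ((M.eRk A).toNat : ℕ∞) := by
  have : M.Finite := ⟨hM⟩
  refine (ENat.natCast_toNat ?_).symm
  rw [Matroid.eRk_ne_top_iff]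
  exact Matroid.isRkFinite_set M A

theorem rk_nonneg (M : Matroid α) (A : Set α) : 0 ≤ rk M A := Int.natCast_nonneg _

theorem rk_le_iff (hM : M.E.Finite) {A : Set α} {n : ℕ} : rk M A ≤ n ↔ M.eRk A ≤ n := by
  rw [rk_cast hM A]; unfold rk; norm_cast

theorem le_rk_iff (hM : M.E.Finite) {A : Set α} {n : ℕ} : (n : ℤ) ≤ rk M A ↔ (n : ℕ∞) ≤ M.eRk A := by
  rw [rk_cast hM A]; unfold rk; norm_cast

theorem rk_eq_iff (hM : M.E.Finite) {A : Set α} {n : ℕ} : rk M A = n ↔ M.eRk A = n := by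
  rw [rk_cast hM A]; unfold rk; norm_cast

theorem rk_mono (hM : M.E.Finite) {A B : Set α} (h : A ⊆ B) : rk M A ≤ rk M B := by
  have h1 := M.eRk_mono h
  rw [rk_cast hM A, rk_cast hM B] at h1
  unfold rk; exact_mod_cast h1

theorem rk_submod (hM : M.E.Finite) : Submod (rk M) := by
  intro X Y
  have h1 := M.eRk_inter_add_eRk_union_le X Y
  rw [rk_cast hM (X ∩ Y), rk_cast hM (X ∪ Y), rk_cast hM X, rk_cast hM Y] at h1
  have h2 : (M.eRk (X ∩ Y)).toNat + (M.eRk (X ∪ Y)).toNat ≤ (M.eRk X).toNat + (M.eRk Y).toNat := by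
    exact_mod_cast h1
  unfold rk
  omega

theorem rk_empty (M : Matroid α) : rk M ∅ = 0 := by unfold rk; simp

theorem rk_inter_ground (M : Matroid α) (A : Set α) : rk M (A ∩ M.E) = rk M A := by
  unfold rk; rw [Matroid.eRk_inter_ground]

theorem rk_le_ncard (M : Matroid α) {A : Set α} (hA : A.Finite) : rk M A ≤ A.ncard := by
  have h1 := M.eRk_le_encard A
  rw [← hA.cast_ncard_eq] at h1
  have h2 : (M.eRk A).toNat ≤ A.ncard := by
    have := ENat.toNat_le_toNat h1 (ENat.natCast_ne_top _)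
    simpa using this
  unfold rk; exact_mod_cast h2

theorem rk_insert_le (hM : M.E.Finite) (A : Set α) (e : α) : rk M (insert e A) ≤ rk M A + 1 := by
  have h1 := M.eRk_insert_le_add_one e A
  rw [rk_cast hM (insert e A), rk_cast hM A] at h1
  unfold rk; exact_mod_cast h1

theorem rk_indep (hM : M.E.Finite) {I : Set α} (hI : M.Indep I) : rk M I = I.ncard := by
  have hfin : I.Finite := hM.subset hI.subset_ground
  rw [rk_eq_iff hM, hI.eRk_eq_encard, hfin.cast_ncard_eq]

theorem indep_iff_rk (hM : M.E.Finite) {I : Set α} (hI : I ⊆ M.E) :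
    M.Indep I ↔ (I.ncard : ℤ) ≤ rk M I := by
  constructor
  · intro h; rw [rk_indep hM h]
  · intro h
    have hfin : I.Finite := hM.subset hI
    rw [Matroid.indep_iff_eRk_eq_encard_of_finite hfin]
    refine le_antisymm (M.eRk_le_encard I) ?_
    rw [le_rk_iff hM, hfin.cast_ncard_eq] at h
    exact h

/-- `rk M (A ∪ B) ≤ rk M A + |B|`. -/
theorem rk_union_le (hM : M.E.Finite) (A : Set α) {B : Set α} (hB : B.Finite) :
    rk M (A ∪ B) ≤ rk M A + B.ncard := by
  have h1 := rk_submod hM A B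
  have h2 := rk_nonneg M (A ∩ B)
  have h3 := rk_le_ncard M hB
  linarith

end rank

/-! ### Small matroids -/

theorem Expr.small {α : Type} {M : Matroid α} (hM : M.E.Finite) {c : ℕ} (hc : M.E.ncard ≤ c) :
    Expr c M.E (rk M) := by
  classical
  refine ⟨Empty, inferInstance, fun X => rk M (Sum.inl ⁻¹' X), ?_, ?_⟩
  · refine Dec.junta _ (hM.toFinset.map ⟨Sum.inl, Sum.inl_injective⟩) ?_ ?_ ?_
    · rw [Finset.card_map, ← Set.ncard_eq_toFinset_card _ hM]; exact hc
    · intro X Y; exact rk_submod hM _ _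
    · intro X
      show rk M (Sum.inl ⁻¹' X) = rk M (Sum.inl ⁻¹' (X ∩ _))
      rw [← rk_inter_ground M (Sum.inl ⁻¹' X)]
      congr 1
      ext x
      simp
  · intro A _
    have e : ∀ Z : Set Empty, Sum.inl ⁻¹' (mk A Z) = A := by
      intro Z; ext x; rw [mem_preimage, mem_mk_inl]
    exact ⟨fun Z => by show rk M A ≤ rk M (Sum.inl ⁻¹' (mk A Z)); rw [e],
      ∅, by show rk M (Sum.inl ⁻¹' (mk A ∅)) = rk M A; rw [e]⟩

/-! ### Restriction -/

open scoped Matroid in
theorem Expr.restrict {α : Type} {M : Matroid α} {c : ℕ} (h : Expr c M.E (rk M)) {R : Set α}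
    (hR : R ⊆ M.E) : Expr c (M ↾ R).E (rk (M ↾ R)) := by
  obtain ⟨ω, hω, f, hf, hr⟩ := h
  refine ⟨ω, hω, f, hf, fun A hA => ?_⟩
  have hA' : A ⊆ R := hA
  have e : rk (M ↾ R) A = rk M A := by
    unfold rk; rw [Matroid.restrict_eRk_eq _ hA']
  rw [e]
  exact hr A (hA'.trans hR)

/-! ### Duality -/

open Classical in
theorem Dec.cardTerm {α ω : Type} {c : ℕ} (hc : 1 ≤ c) (E : Finset α) :
    Dec c (fun X : Set (α ⊕ ω) => ∑ v ∈ E, if Sum.inl v ∈ X then (1 : ℤ) else 0) :=
  Dec.sum E _ fun v _ => Dec.single hc (Sum.inl v) 1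

open Classical in
theorem cardTerm_eq {α ω : Type} {E : Finset α} {A : Set α} (hA : A ⊆ E) (Z : Set ω) :
    (∑ v ∈ E, if (Sum.inl v : α ⊕ ω) ∈ mk A Z then (1 : ℤ) else 0) = A.ncard := by
  simp only [mem_mk_inl]
  rw [← Finset.sum_filter, Finset.sum_const, nsmul_eq_mul, mul_one]
  have : A = (E.filter (· ∈ A) : Finset α) := by
    ext x; simp only [Finset.coe_filter, mem_ofPred_eq]
    exact ⟨fun h => ⟨hA h, h⟩, fun h => h.2⟩
  conv_rhs => rw [this]
  rw [Set.ncard_coe_finset]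

open scoped Matroid in
theorem rk_dual {α : Type} {M : Matroid α} (hM : M.E.Finite) {A : Set α} (hA : A ⊆ M.E) :
    rk M✶ A = A.ncard + rk M (M.E \ A) - rk M M.E := by
  have h1 := M.eRk_dual_add_eRank A hA
  rw [Matroid.eRank_def, rk_cast (M := M✶) hM A, rk_cast hM M.E, rk_cast hM (M.E \ A),
    ← (hM.subset hA).cast_ncard_eq] at h1
  have h2 : (M✶.eRk A).toNat + (M.eRk M.E).toNat = (M.eRk (M.E \ A)).toNat + A.ncard := by
    exact_mod_cast h1
  unfold rk
  omega

open scoped Matroid in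
theorem Expr.dual {α : Type} {M : Matroid α} {c : ℕ} (hc : 1 ≤ c) (hM : M.E.Finite)
    (h : Expr c M.E (rk M)) : Expr c M✶.E (rk M✶) := by
  classical
  obtain ⟨ω, hω, f, hf, hr⟩ := h
  set b : α ⊕ ω → Prop := fun e => ∃ v, e = Sum.inl v ∧ v ∉ M.E with hb
  refine ⟨ω, hω, fun X => (∑ v ∈ hM.toFinset, if (Sum.inl v : α ⊕ ω) ∈ X then (1 : ℤ) else 0) +
    (f {e | b e ∨ ∃ x ∈ X, some e = some x}ᶜ + (-rk M M.E)), ?_, ?_⟩
  · refine Dec.add _ _ (Dec.cardTerm hc _) (Dec.add _ _ ?_ (Dec.const _))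
    exact hf.compl.subst some b
  · intro A hA
    have hA' : A ⊆ M.E := hA
    have e1 : ∀ Z : Set ω, {e | b e ∨ ∃ x ∈ mk A Z, some e = some x}ᶜ = mk (M.E \ A) Zᶜ := by
      intro Z
      ext e
      rcases e with e | e
      · rw [mem_mk_inl]
        simp only [hb, mem_compl_iff, mem_ofPred_eq, Sum.inl.injEq, Option.some.injEq, not_or,
          not_exists, not_and, mem_sdiff]
        constructor
        · rintro ⟨h1, h2⟩
          refine ⟨by_contra fun hcon => h1 e rfl hcon, fun hcon => ?_⟩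
          exact h2 (Sum.inl e) (mem_mk_inl.2 hcon) rfl
        · rintro ⟨h1, h2⟩
          refine ⟨fun v hv hcon => hcon (hv ▸ h1), fun x hx hex => ?_⟩
          rw [← hex, mem_mk_inl] at hx
          exact h2 hx
      · rw [mem_mk_inr]
        simp only [hb, mem_compl_iff, mem_ofPred_eq, Option.some.injEq, not_or,
          not_exists, not_and, reduceCtorEq, false_implies, implies_true, true_and]
        constructor
        · intro h1 h2
          exact h1 (Sum.inr e) (mem_mk_inr.2 h2) rfl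
        · intro h1 x hx hex
          rw [← hex, mem_mk_inr] at hx
          exact h1 hx
    have e2 : ∀ Z : Set ω, (∑ v ∈ hM.toFinset, if (Sum.inl v : α ⊕ ω) ∈ mk A Z then (1 : ℤ) else 0) =
        A.ncard := fun Z => cardTerm_eq (by simpa using hA') Z
    rw [rk_dual hM hA']
    obtain ⟨h1, Z0, h2⟩ := hr (M.E \ A) sdiff_subset
    constructor
    · intro Z
      show _ ≤ (∑ v ∈ hM.toFinset, if (Sum.inl v : α ⊕ ω) ∈ mk A Z then (1 : ℤ) else 0) +
        (f {e | b e ∨ ∃ x ∈ mk A Z, some e = some x}ᶜ + (-rk M M.E))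
      rw [e1, e2]
      have := h1 Zᶜ
      linarith
    · refine ⟨Z0ᶜ, ?_⟩
      show (∑ v ∈ hM.toFinset, if (Sum.inl v : α ⊕ ω) ∈ mk A Z0ᶜ then (1 : ℤ) else 0) +
        (f {e | b e ∨ ∃ x ∈ mk A Z0ᶜ, some e = some x}ᶜ + (-rk M M.E)) = _
      rw [e1, e2, compl_compl, h2]
      ring

open scoped Matroid in
theorem Expr.contract {α : Type} {M : Matroid α} {c : ℕ} (hc : 1 ≤ c) (hM : M.E.Finite)
    (h : Expr c M.E (rk M)) (C : Set α) : Expr c (M ／ C).E (rk (M ／ C)) := by
  have h1 := h.dual hc hM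
  have h2 := h1.restrict (R := M✶.E \ C) sdiff_subset
  have h3 := h2.dual hc (hM.subset sdiff_subset)
  exact h3

/-! ### Direct sums -/

theorem eRk_sum {α β : Type} (M : Matroid α) (N : Matroid β) (A : Set (α ⊕ β)) :
    (M.sum N).eRk A = M.eRk (Sum.inl ⁻¹' A) + N.eRk (Sum.inr ⁻¹' A) := by
  obtain ⟨I, hI⟩ := M.exists_isBasis' (Sum.inl ⁻¹' A)
  obtain ⟨J, hJ⟩ := N.exists_isBasis' (Sum.inr ⁻¹' A)
  have h1 : (M.sum N).IsBasis (Sum.inl '' I ∪ Sum.inr '' J) (A ∩ (M.sum N).E) := by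
    rw [Matroid.sum_isBasis_iff]
    have e1 : Sum.inl ⁻¹' (Sum.inl '' I ∪ Sum.inr '' J : Set (α ⊕ β)) = I := by ext x; simp
    have e2 : Sum.inr ⁻¹' (Sum.inl '' I ∪ Sum.inr '' J : Set (α ⊕ β)) = J := by ext x; simp
    have e3 : Sum.inl ⁻¹' (A ∩ (M.sum N).E) = Sum.inl ⁻¹' A ∩ M.E := by ext x; simp
    have e4 : Sum.inr ⁻¹' (A ∩ (M.sum N).E) = Sum.inr ⁻¹' A ∩ N.E := by ext x; simp
    rw [e1, e2, e3, e4]
    exact ⟨hI.isBasis_inter_ground, hJ.isBasis_inter_ground⟩
  rw [← Matroid.eRk_inter_ground, h1.eRk_eq_encard, hI.eRk_eq_encard, hJ.eRk_eq_encard,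
    encard_union_eq, Sum.inl_injective.encard_image, Sum.inr_injective.encard_image]
  rw [Set.disjoint_left]
  rintro _ ⟨x, _, rfl⟩ ⟨y, _, hy⟩
  cases hy

theorem rk_sum {α β : Type} {M : Matroid α} {N : Matroid β} (hM : M.E.Finite) (hN : N.E.Finite)
    (A : Set (α ⊕ β)) : rk (M.sum N) A = rk M (Sum.inl ⁻¹' A) + rk N (Sum.inr ⁻¹' A) := by
  unfold rk
  rw [eRk_sum, rk_cast hM, rk_cast hN]
  norm_cast

theorem Expr.sum {α β : Type} {M : Matroid α} {N : Matroid β} {c : ℕ} (hM : M.E.Finite)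
    (hN : N.E.Finite) (h : Expr c M.E (rk M)) (h' : Expr c N.E (rk N)) :
    Expr c (M.sum N).E (rk (M.sum N)) := by
  obtain ⟨ω, hω, f, hf, hr⟩ := h
  obtain ⟨ω', hω', g, hg, hr'⟩ := h'
  set σ : α ⊕ ω → Option ((α ⊕ β) ⊕ (ω ⊕ ω')) :=
    Sum.elim (fun a => some (Sum.inl (Sum.inl a))) (fun z => some (Sum.inr (Sum.inl z))) with hσ
  set σ' : β ⊕ ω' → Option ((α ⊕ β) ⊕ (ω ⊕ ω')) :=
    Sum.elim (fun a => some (Sum.inl (Sum.inr a))) (fun z => some (Sum.inr (Sum.inr z))) with hσ'
  refine ⟨ω ⊕ ω', inferInstance, fun X => f {e | False ∨ ∃ x ∈ X, σ e = some x} +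
    g {e | False ∨ ∃ x ∈ X, σ' e = some x}, Dec.add _ _ (hf.subst σ fun _ => False)
    (hg.subst σ' fun _ => False), fun A hA => ?_⟩
  have e1 : ∀ Z : Set (ω ⊕ ω'), {e | False ∨ ∃ x ∈ mk A Z, σ e = some x} =
      mk (Sum.inl ⁻¹' A) (Sum.inl ⁻¹' Z) := by
    intro Z
    ext e
    rcases e with e | e
    · rw [mem_mk_inl]
      simp only [hσ, Sum.elim_inl, false_or, mem_ofPred_eq, Option.some.injEq, exists_eq_right',
        mem_mk_inl, mem_preimage]
    · rw [mem_mk_inr]
      simp only [hσ, Sum.elim_inr, false_or, mem_ofPred_eq, Option.some.injEq, exists_eq_right',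
        mem_mk_inr, mem_preimage]
  have e2 : ∀ Z : Set (ω ⊕ ω'), {e | False ∨ ∃ x ∈ mk A Z, σ' e = some x} =
      mk (Sum.inr ⁻¹' A) (Sum.inr ⁻¹' Z) := by
    intro Z
    ext e
    rcases e with e | e
    · rw [mem_mk_inl]
      simp only [hσ', Sum.elim_inl, false_or, mem_ofPred_eq, Option.some.injEq, exists_eq_right',
        mem_mk_inl, mem_preimage]
    · rw [mem_mk_inr]
      simp only [hσ', Sum.elim_inr, false_or, mem_ofPred_eq, Option.some.injEq, exists_eq_right',
        mem_mk_inr, mem_preimage]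
  have hA1 : Sum.inl ⁻¹' A ⊆ M.E := by
    intro x hx
    have := hA hx
    simpa using this
  have hA2 : Sum.inr ⁻¹' A ⊆ N.E := by
    intro x hx
    have := hA hx
    simpa using this
  obtain ⟨h1, Z1, h2⟩ := hr _ hA1
  obtain ⟨h3, Z2, h4⟩ := hr' _ hA2
  rw [rk_sum hM hN]
  constructor
  · intro Z
    show _ ≤ f {e | False ∨ ∃ x ∈ mk A Z, σ e = some x} + g {e | False ∨ ∃ x ∈ mk A Z, σ' e = some x}
    rw [e1, e2]
    exact add_le_add (h1 _) (h3 _)
  · refine ⟨Sum.inl '' Z1 ∪ Sum.inr '' Z2, ?_⟩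
    show f {e | False ∨ ∃ x ∈ mk A _, σ e = some x} + g {e | False ∨ ∃ x ∈ mk A _, σ' e = some x} = _
    rw [e1, e2]
    have e3 : Sum.inl ⁻¹' (Sum.inl '' Z1 ∪ Sum.inr '' Z2 : Set (ω ⊕ ω')) = Z1 := by ext x; simp
    have e4 : Sum.inr ⁻¹' (Sum.inl '' Z1 ∪ Sum.inr '' Z2 : Set (ω ⊕ ω')) = Z2 := by ext x; simp
    rw [e3, e4, h2, h4]

/-! ### Isomorphism -/

theorem rk_iso_le {α β : Type} {M : Matroid α} {N : Matroid β} (hM : M.E.Finite) (hN : N.E.Finite)
    (e : M.E ≃ N.E)
    (he : ∀ I : Set M.E, M.Indep (Subtype.val '' I) → N.Indep (Subtype.val '' (e '' I)))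
    (A : Set M.E) : rk M (Subtype.val '' A) ≤ rk N (Subtype.val '' (e '' A)) := by
  obtain ⟨I, hI⟩ := M.exists_isBasis (Subtype.val '' A) (by rintro _ ⟨x, _, rfl⟩; exact x.2)
  have hIsub := hI.subset
  obtain ⟨J, hJA, rfl⟩ := Set.subset_image_iff.1 hIsub
  have h1 : rk M (Subtype.val '' A) = ((Subtype.val '' J : Set α).ncard : ℤ) := by
    rw [← rk_indep hM hI.indep]
    unfold rk
    rw [hI.eRk_eq_eRk]
  have h2 := he J hI.indep
  have h3 := rk_indep hN h2
  rw [h1, Set.ncard_image_of_injective _ Subtype.val_injective]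
  rw [Set.ncard_image_of_injective _ Subtype.val_injective,
    Set.ncard_image_of_injective _ e.injective] at h3
  rw [← h3]
  exact rk_mono hN (image_mono (image_mono hJA))

theorem Expr.iso {α β : Type} {M : Matroid α} {N : Matroid β} {c : ℕ} (hM : M.E.Finite)
    (hN : N.E.Finite) (hiso : Iso M N) (h : Expr c M.E (rk M)) : Expr c N.E (rk N) := by
  classical
  obtain ⟨e, he⟩ := hiso
  obtain ⟨ω, hω, f, hf, hr⟩ := h
  set σ : α ⊕ ω → Option (β ⊕ ω) :=
    Sum.elim (fun a => if ha : a ∈ M.E then some (Sum.inl (e ⟨a, ha⟩ : β)) else none)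
      (fun z => some (Sum.inr z)) with hσ
  refine ⟨ω, hω, fun X => f {x | False ∨ ∃ y ∈ X, σ x = some y}, hf.subst σ fun _ => False,
    fun A hA => ?_⟩
  set A' : Set N.E := {y | (y : β) ∈ A} with hA'
  have eA : Subtype.val '' A' = A := by
    ext y
    constructor
    · rintro ⟨y, hy, rfl⟩; exact hy
    · intro hy; exact ⟨⟨y, hA hy⟩, hy, rfl⟩
  set B : Set M.E := e ⁻¹' A' with hB
  have eB : e '' B = A' := Set.image_preimage_eq _ e.surjective
  have e1 : ∀ Z : Set ω, {x | False ∨ ∃ y ∈ mk A Z, σ x = some y} = mk (Subtype.val '' B) Z := by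
    intro Z
    ext x
    rcases x with x | x
    · rw [mem_mk_inl]
      simp only [hσ, Sum.elim_inl, false_or, mem_ofPred_eq]
      constructor
      · rintro ⟨y, hy, hxy⟩
        by_cases hx : x ∈ M.E
        · rw [dif_pos hx, Option.some.injEq] at hxy
          rw [← hxy, mem_mk_inl] at hy
          exact ⟨⟨x, hx⟩, hy, rfl⟩
        · rw [dif_neg hx] at hxy; cases hxy
      · rintro ⟨⟨x, hx⟩, hxB, rfl⟩
        refine ⟨Sum.inl (e ⟨x, hx⟩ : β), mem_mk_inl.2 hxB, ?_⟩
        rw [dif_pos hx]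
    · rw [mem_mk_inr]
      simp only [hσ, Sum.elim_inr, false_or, mem_ofPred_eq, Option.some.injEq, exists_eq_right',
        mem_mk_inr]
  have e2 : rk N A = rk M (Subtype.val '' B) := by
    apply le_antisymm
    · have h1 := rk_iso_le hN hM e.symm (fun I hI => by
        rw [he, e.image_symm_eq_preimage, Set.image_preimage_eq _ e.surjective]; exact hI) A'
      rw [eA, e.image_symm_eq_preimage] at h1
      exact h1
    · have h1 := rk_iso_le hM hN e (fun I hI => (he I).1 hI) B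
      rw [eB, eA] at h1
      exact h1
  rw [e2]
  obtain ⟨h1, Z0, h2⟩ := hr (Subtype.val '' B) (by rintro _ ⟨x, _, rfl⟩; exact x.2)
  constructor
  · intro Z
    show _ ≤ f {x | False ∨ ∃ y ∈ mk A Z, σ x = some y}
    rw [e1]; exact h1 Z
  · refine ⟨Z0, ?_⟩
    show f {x | False ∨ ∃ y ∈ mk A Z0, σ x = some y} = _
    rw [e1]; exact h2

/-! ### Truncation -/

theorem rk_truncation {α : Type} {M T : Matroid α} {k : ℕ} (hM : M.E.Finite)
    (hT : IsTruncation M k T) (A : Set α) : rk T A = min (rk M A) k := by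
  obtain ⟨hTE, hT⟩ := hT
  have hTf : T.E.Finite := hTE ▸ hM
  apply le_antisymm
  · apply le_min
    · obtain ⟨I, hI⟩ := T.exists_isBasis' A
      have h1 : rk T A = rk T I := by unfold rk; rw [hI.eRk_eq_eRk]
      rw [h1, rk_indep hTf hI.indep, ← rk_indep hM ((hT I).1 hI.indep).1]
      exact rk_mono hM hI.subset
    · rw [rk_le_iff hTf, Matroid.eRk_le_iff]
      intro I _ hI
      exact ((hT I).1 hI).2
  · rcases le_total (rk M A) k with h | h
    · rw [min_eq_left h]
      obtain ⟨I, hI⟩ := M.exists_isBasis' A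
      have h1 : rk M A = rk M I := by unfold rk; rw [hI.eRk_eq_eRk]
      have hIfin : I.Finite := hM.subset hI.indep.subset_ground
      have h2 : T.Indep I := by
        refine (hT I).2 ⟨hI.indep, ?_⟩
        rw [h1, rk_indep hM hI.indep] at h
        rw [← hIfin.cast_ncard_eq]
        exact_mod_cast h
      rw [h1, rk_indep hM hI.indep, ← rk_indep hTf h2]
      exact rk_mono hTf hI.subset
    · rw [min_eq_right h]
      rw [le_rk_iff hM, Matroid.le_eRk_iff] at h
      obtain ⟨I, hIA, hI, hcard⟩ := h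
      have h2 : T.Indep I := (hT I).2 ⟨hI, hcard.le⟩
      rw [le_rk_iff hTf, Matroid.le_eRk_iff]
      exact ⟨I, hIA, h2, hcard⟩

theorem Expr.truncate {α : Type} {M T : Matroid α} {k c : ℕ} (hc : 2 ≤ c) (hM : M.E.Finite)
    (hk : (k : ℕ∞) ≤ M.eRank) (hT : IsTruncation M k T) (h : Expr c M.E (rk M)) :
    Expr c T.E (rk T) := by
  classical
  obtain ⟨ω, hω, f, hf, hr⟩ := h
  have : Fintype M.E := hM.fintype
  have : Finite M.E := hM
  -- hidden elements: a copy of the ground set, one switch, the old hidden elements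
  set σ : α ⊕ ω → Option (α ⊕ ((M.E ⊕ Unit) ⊕ ω)) :=
    Sum.elim (fun a => if ha : a ∈ M.E then some (Sum.inr (Sum.inl (Sum.inl ⟨a, ha⟩))) else none)
      (fun z => some (Sum.inr (Sum.inr z))) with hσ
  set sw : α ⊕ ((M.E ⊕ Unit) ⊕ ω) := Sum.inr (Sum.inl (Sum.inr ())) with hsw
  refine ⟨(M.E ⊕ Unit) ⊕ ω, inferInstance, fun X => f {x | False ∨ ∃ y ∈ X, σ x = some y} +
    ((∑ v : M.E, if (Sum.inl (v : α) : α ⊕ ((M.E ⊕ Unit) ⊕ ω)) ∈ X ∧
        (Sum.inr (Sum.inl (Sum.inl v)) : α ⊕ ((M.E ⊕ Unit) ⊕ ω)) ∉ X then (1 : ℤ) else 0) +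
    ((if sw ∈ X then k - rk M M.E else 0) +
     ∑ v : M.E, if sw ∈ X ∧ (Sum.inr (Sum.inl (Sum.inl v)) : α ⊕ ((M.E ⊕ Unit) ⊕ ω)) ∉ X
       then (1 : ℤ) else 0)), ?_, ?_⟩
  · refine Dec.add _ _ (hf.subst σ fun _ => False) (Dec.add _ _ (Dec.sum _ _ fun v _ =>
      Dec.pen hc _ _ 1 zero_le_one) (Dec.add _ _ (Dec.single (by omega) _ _) (Dec.sum _ _ fun v _ =>
      Dec.pen hc _ _ 1 zero_le_one)))
  intro A hA
  have hAE : A ⊆ M.E := by rw [← hT.1]; exact hA
  rw [rk_truncation hM hT]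
  -- the value of the function
  have hval : ∀ (b : Set M.E) (s : Set Unit) (Z : Set ω),
      f {x | False ∨ ∃ y ∈ mk A (mk (mk b s) Z), σ x = some y} +
    ((∑ v : M.E, if (Sum.inl (v : α) : α ⊕ ((M.E ⊕ Unit) ⊕ ω)) ∈ mk A (mk (mk b s) Z) ∧
        (Sum.inr (Sum.inl (Sum.inl v)) : α ⊕ ((M.E ⊕ Unit) ⊕ ω)) ∉ mk A (mk (mk b s) Z)
        then (1 : ℤ) else 0) +
    ((if sw ∈ mk A (mk (mk b s) Z) then k - rk M M.E else 0) +
     ∑ v : M.E, if sw ∈ mk A (mk (mk b s) Z) ∧ (Sum.inr (Sum.inl (Sum.inl v)) :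
        α ⊕ ((M.E ⊕ Unit) ⊕ ω)) ∉ mk A (mk (mk b s) Z) then (1 : ℤ) else 0)) =
      f (mk (Subtype.val '' b) Z) + ((A \ Subtype.val '' b).ncard +
        ((if () ∈ s then k - rk M M.E else 0) +
          if () ∈ s then ((M.E \ Subtype.val '' b).ncard : ℤ) else 0)) := by
    intro b s Z
    have e1 : {x | False ∨ ∃ y ∈ mk A (mk (mk b s) Z), σ x = some y} =
        mk (Subtype.val '' b) Z := by
      ext x
      rcases x with x | x
      · rw [mem_mk_inl]
        simp only [hσ, Sum.elim_inl, false_or, mem_ofPred_eq]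
        constructor
        · rintro ⟨y, hy, hxy⟩
          by_cases hx : x ∈ M.E
          · rw [dif_pos hx, Option.some.injEq] at hxy
            rw [← hxy, mem_mk_inr, mem_mk_inl, mem_mk_inl] at hy
            exact ⟨⟨x, hx⟩, hy, rfl⟩
          · rw [dif_neg hx] at hxy; cases hxy
        · rintro ⟨⟨x, hx⟩, hxB, rfl⟩
          refine ⟨Sum.inr (Sum.inl (Sum.inl ⟨x, hx⟩)), ?_, ?_⟩
          · rw [mem_mk_inr, mem_mk_inl, mem_mk_inl]; exact hxB
          · rw [dif_pos hx]
      · rw [mem_mk_inr]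
        simp only [hσ, Sum.elim_inr, false_or, mem_ofPred_eq, Option.some.injEq, exists_eq_right',
          mem_mk_inr]
    rw [e1]
    have esw : sw ∈ mk A (mk (mk b s) Z) ↔ () ∈ s := by
      rw [hsw, mem_mk_inr, mem_mk_inl, mem_mk_inr]
    have ecount : ∀ R ⊆ M.E, (∑ v : M.E, if (v : α) ∈ R ∧ v ∉ b then (1 : ℤ) else 0) =
        ((R \ Subtype.val '' b).ncard : ℤ) := by
      intro R hR
      rw [← Finset.sum_filter, Finset.sum_const, nsmul_eq_mul, mul_one]
      have : R \ Subtype.val '' b =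
          Subtype.val '' ((Finset.univ.filter fun v : M.E => (v : α) ∈ R ∧ v ∉ b : Finset M.E) :
            Set M.E) := by
        ext x
        simp only [Finset.coe_filter, Finset.mem_univ, true_and, mem_image, mem_ofPred_eq, mem_sdiff,
          Subtype.exists, exists_and_right, exists_eq_right, not_exists]
        constructor
        · rintro ⟨h1, h2⟩; exact ⟨hR h1, h1, h2 (hR h1)⟩
        · rintro ⟨h1, h2, h3⟩; exact ⟨h2, fun _ => h3⟩
      rw [this, Set.ncard_image_of_injective _ Subtype.val_injective, Set.ncard_coe_finset]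
    have e2 : (∑ v : M.E, if (Sum.inl (v : α) : α ⊕ ((M.E ⊕ Unit) ⊕ ω)) ∈ mk A (mk (mk b s) Z) ∧
        (Sum.inr (Sum.inl (Sum.inl v)) : α ⊕ ((M.E ⊕ Unit) ⊕ ω)) ∉ mk A (mk (mk b s) Z)
        then (1 : ℤ) else 0) = ((A \ Subtype.val '' b).ncard : ℤ) := by
      rw [← ecount A hAE]
      refine Finset.sum_congr rfl fun v _ => ?_
      rw [mem_mk_inl, mem_mk_inr, mem_mk_inl, mem_mk_inl]
    have e3 : (∑ v : M.E, if sw ∈ mk A (mk (mk b s) Z) ∧ (Sum.inr (Sum.inl (Sum.inl v)) :
        α ⊕ ((M.E ⊕ Unit) ⊕ ω)) ∉ mk A (mk (mk b s) Z) then (1 : ℤ) else 0) =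
        if () ∈ s then ((M.E \ Subtype.val '' b).ncard : ℤ) else 0 := by
      by_cases hs : () ∈ s
      · rw [if_pos hs, ← ecount M.E Subset.rfl]
        refine Finset.sum_congr rfl fun v _ => ?_
        rw [esw, mem_mk_inr, mem_mk_inl, mem_mk_inl]
        have := v.2
        simp [hs]
      · rw [if_neg hs]
        refine Finset.sum_eq_zero fun v _ => ?_
        rw [esw, if_neg]; tauto
    rw [e2, e3]
    by_cases hs : () ∈ s
    · rw [if_pos (esw.2 hs)]
      simp only [hs, if_true]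
    · rw [if_neg (fun h => hs (esw.1 h))]
      simp only [hs, if_false]
  have hkE : (k : ℤ) ≤ rk M M.E := by rw [le_rk_iff hM]; rw [Matroid.eRank_def] at hk; exact hk
  constructor
  · intro W
    show _ ≤ f {x | False ∨ ∃ y ∈ mk A W, σ x = some y} +
      ((∑ v : M.E, if (Sum.inl (v : α) : α ⊕ ((M.E ⊕ Unit) ⊕ ω)) ∈ mk A W ∧
          (Sum.inr (Sum.inl (Sum.inl v)) : α ⊕ ((M.E ⊕ Unit) ⊕ ω)) ∉ mk A W then (1 : ℤ) else 0) +
      ((if sw ∈ mk A W then k - rk M M.E else 0) +
       ∑ v : M.E, if sw ∈ mk A W ∧ (Sum.inr (Sum.inl (Sum.inl v)) :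
          α ⊕ ((M.E ⊕ Unit) ⊕ ω)) ∉ mk A W then (1 : ℤ) else 0))
    rw [eq_mk W, eq_mk (Sum.inl ⁻¹' W), hval]
    set b : Set M.E := Sum.inl ⁻¹' (Sum.inl ⁻¹' W) with hb
    set s : Set Unit := Sum.inr ⁻¹' (Sum.inl ⁻¹' W) with hs'
    set Z : Set ω := Sum.inr ⁻¹' W with hZ
    have hbE : Subtype.val '' b ⊆ M.E := by rintro _ ⟨x, _, rfl⟩; exact x.2
    have h1 := (hr (Subtype.val '' b) hbE).1 Z
    by_cases hs : () ∈ s
    · rw [if_pos hs, if_pos hs]
      have h2 := rk_union_le hM (Subtype.val '' b) (hM.subset (sdiff_subset : M.E \ Subtype.val '' b ⊆ M.E))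
      rw [union_sdiff_cancel hbE] at h2
      have h3 : min (rk M A) (k : ℤ) ≤ k := min_le_right _ _
      have h4 : (0 : ℤ) ≤ (A \ Subtype.val '' b).ncard := Int.natCast_nonneg _
      linarith
    · rw [if_neg hs, if_neg hs]
      have h2 := rk_union_le hM (Subtype.val '' b) (hM.subset ((sdiff_subset : A \ Subtype.val '' b ⊆ A).trans hAE))
      have h3 : rk M A ≤ rk M (Subtype.val '' b ∪ A \ Subtype.val '' b) :=
        rk_mono hM (by rw [union_sdiff_self]; exact subset_union_right)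
      have h4 : min (rk M A) (k : ℤ) ≤ rk M A := min_le_left _ _
      linarith
  · rcases le_total (rk M A) k with h | h
    · obtain ⟨_, Z, hZ⟩ := hr A hAE
      have eA : (Subtype.val '' {v : M.E | (v : α) ∈ A} : Set α) = A := by
        ext x
        constructor
        · rintro ⟨x, hx, rfl⟩; exact hx
        · intro hx; exact ⟨⟨x, hAE hx⟩, hx, rfl⟩
      refine ⟨mk (mk {v : M.E | (v : α) ∈ A} ∅) Z, ?_⟩
      refine (hval {v : M.E | (v : α) ∈ A} ∅ Z).trans ?_
      rw [eA, hZ, min_eq_left h]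
      simp
    · obtain ⟨_, Z, hZ⟩ := hr M.E Subset.rfl
      have eE : (Subtype.val '' (univ : Set M.E) : Set α) = M.E := by
        ext x; simp
      refine ⟨mk (mk univ univ) Z, ?_⟩
      refine (hval univ univ Z).trans ?_
      rw [eE, hZ, min_eq_right h]
      have e5 : A \ M.E = ∅ := sdiff_eq_empty.2 hAE
      rw [e5]
      simp

/-! ### The zero-sum matroids exist and are strongly base-orderable -/

/-! ### The zero-sum triple matroid -/

section zst

variable {d : ℕ}

/-- three-point lines: zero-sum triples -/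
def Ln (I : Set (Fin d → ZMod 3)) : Prop :=
  ∃ a b c : Fin d → ZMod 3, a ≠ b ∧ a ≠ c ∧ b ≠ c ∧ a + b + c = 0 ∧ I = {a, b, c}

theorem Ln.encard {I : Set (Fin d → ZMod 3)} (h : Ln I) : I.encard = 3 := by
  obtain ⟨a, b, c, hab, hac, hbc, _, rfl⟩ := h
  exact encard_eq_three.2 ⟨a, b, c, hab, hac, hbc, rfl⟩

theorem ln_iff {x y z : Fin d → ZMod 3} (hxy : x ≠ y) (hxz : x ≠ z) (hyz : y ≠ z) :
    Ln ({x, y, z} : Set (Fin d → ZMod 3)) ↔ x + y + z = 0 := by
  classical
  constructor
  · rintro ⟨a, b, c, hab, hac, hbc, hs, h⟩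
    have h1 : ({x, y, z} : Finset (Fin d → ZMod 3)) = {a, b, c} := by
      apply Finset.coe_injective
      push_cast
      exact h
    have h2 : ∑ t ∈ ({x, y, z} : Finset (Fin d → ZMod 3)), t = x + y + z := by
      rw [Finset.sum_insert (by simp [hxy, hxz]), Finset.sum_insert (by simp [hyz]),
        Finset.sum_singleton, add_assoc]
    have h3 : ∑ t ∈ ({a, b, c} : Finset (Fin d → ZMod 3)), t = a + b + c := by
      rw [Finset.sum_insert (by simp [hab, hac]), Finset.sum_insert (by simp [hbc]),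
        Finset.sum_singleton, add_assoc]
    rw [← h2, h1, h3, hs]
  · intro h
    exact ⟨x, y, z, hxy, hxz, hyz, h, rfl⟩

/-- independence -/
def Ind (I : Set (Fin d → ZMod 3)) : Prop := I.encard ≤ 3 ∧ ¬ Ln I

theorem ind_of_le_two {I : Set (Fin d → ZMod 3)} (h : I.encard ≤ 2) : Ind I := by
  refine ⟨h.trans (by norm_num), fun hL => ?_⟩
  rw [hL.encard] at h
  exact absurd h (by norm_num)

theorem ind_subset {I J : Set (Fin d → ZMod 3)} (hJ : Ind J) (hIJ : I ⊆ J) : Ind I := by
  refine ⟨(encard_mono hIJ).trans hJ.1, fun hL => ?_⟩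
  have hfin : I.Finite := toFinite _
  have : I = J := hfin.eq_of_subset_of_encard_le hIJ (by rw [hL.encard]; exact hJ.1)
  exact hJ.2 (this ▸ hL)

theorem ind_aug {I J : Set (Fin d → ZMod 3)} (_ : Ind I) (hJ : Ind J) (hlt : I.ncard < J.ncard) :
    ∃ e ∈ J, e ∉ I ∧ Ind (insert e I) := by
  have hIf : I.Finite := toFinite _
  have hJf : J.Finite := toFinite _
  have hJ3 : J.ncard ≤ 3 := by
    have := hJ.1
    rw [← hJf.cast_ncard_eq] at this
    exact_mod_cast this
  obtain ⟨e, heJ, heI⟩ : ∃ e ∈ J, e ∉ I := by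
    by_contra hcon
    push Not at hcon
    have := ncard_le_ncard hcon hIf
    omega
  by_cases h1 : I.ncard ≤ 1
  · refine ⟨e, heJ, heI, ind_of_le_two ?_⟩
    have h2 : (insert e I).ncard ≤ 2 := (ncard_insert_le e I).trans (by omega)
    rw [← (toFinite (insert e I)).cast_ncard_eq]
    exact_mod_cast h2
  · have hI2 : I.ncard = 2 := by omega
    have hJ3' : J.ncard = 3 := by omega
    obtain ⟨x, y, hxy, hIxy⟩ := ncard_eq_two.1 hI2
    have hcard : ∀ f, f ∉ I → (insert f I).encard = 3 := by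
      intro f hf
      rw [encard_insert_of_notMem hf, ← hIf.cast_ncard_eq, hI2]
      norm_num
    by_cases hz : ∃ f ∈ J, f ∉ I ∧ f + x + y ≠ 0
    · obtain ⟨f, hfJ, hfI, hf⟩ := hz
      refine ⟨f, hfJ, hfI, (hcard f hfI).le, fun hL => hf ?_⟩
      rw [hIxy] at hfI
      simp only [mem_insert_iff, mem_singleton_iff, not_or] at hfI
      rw [hIxy] at hL
      exact (ln_iff hfI.1 hfI.2 hxy).1 hL
    · exfalso
      push Not at hz
      have he := hz e heJ heI
      have hsub : J ⊆ insert e I := by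
        intro f hf
        by_cases hfI : f ∈ I
        · exact mem_insert_of_mem _ hfI
        · have := hz f hf hfI
          have hfe : f = e := by
            have h5 : f + x + y = e + x + y := by rw [this, he]
            exact add_right_cancel (add_right_cancel h5)
          rw [hfe]; exact mem_insert _ _
      have hJe : J = insert e I := by
        apply hJf.eq_of_subset_of_encard_le hsub
        rw [hcard e heI, ← hJf.cast_ncard_eq, hJ3']
        norm_num
      apply hJ.2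
      rw [hJe, hIxy]
      rw [hIxy] at heI
      simp only [mem_insert_iff, mem_singleton_iff, not_or] at heI
      exact (ln_iff heI.1 heI.2 hxy).2 he

/-- the matroid -/
def ZM (d : ℕ) : Matroid (Fin d → ZMod 3) :=
  (IndepMatroid.ofFinite (E := univ) (toFinite _) Ind (ind_of_le_two (by simp))
    (fun _ _ hJ hIJ => ind_subset hJ hIJ) (fun _ _ h1 h2 h => ind_aug h1 h2 h)
    (fun _ _ => subset_univ _)).matroid

theorem ZM_E (d : ℕ) : (ZM d).E = univ := rfl

theorem ZM_indep (I : Set (Fin d → ZMod 3)) : (ZM d).Indep I ↔ Ind I := Iff.rfl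

theorem isBase_of {B S : Set (Fin d → ZMod 3)} (hB : (ZM d).IsBase B) (hS : Ind S)
    (hc : S.encard = B.encard) : (ZM d).IsBase S := by
  obtain ⟨B', hB', hSB⟩ := ((ZM_indep S).2 hS).exists_isBase_superset
  have : S = B' := by
    apply (toFinite S).eq_of_subset_of_encard_le hSB
    rw [hc, hB'.encard_eq_encard_of_isBase hB]
  rw [this]; exact hB'

/-- the exchange set has the right size -/
theorem exch_encard {B₁ B₂ : Set (Fin d → ZMod 3)} {φ : (Fin d → ZMod 3) → (Fin d → ZMod 3)}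
    (hφ : BijOn φ B₁ B₂) (hid : ∀ x ∈ B₁, x ∈ B₂ → φ x = x) {X : Set (Fin d → ZMod 3)}
    (hX : X ⊆ B₁) : ((B₁ \ X) ∪ φ '' X).encard = B₁.encard := by
  have hdis : Disjoint (B₁ \ X) (φ '' X) := by
    rw [Set.disjoint_left]
    rintro a ⟨ha, haX⟩ ⟨x, hx, hxa⟩
    have haB : a ∈ B₂ := hxa ▸ hφ.mapsTo (hX hx)
    have h1 := hid a ha haB
    have h2 : x = a := hφ.injOn (hX hx) ha (by rw [hxa, h1])
    exact haX (h2 ▸ hx)
  rw [encard_union_eq hdis, (hφ.injOn.mono hX).encard_image]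
  exact encard_sdiff_add_encard_of_subset hX

/-- combinatorial core for three disjoint points -/
theorem prop_core (f11 f12 f13 f21 f22 f23 f31 f32 f33 : Prop)
    (_ : ¬ (f11 ∧ f12 ∧ f13)) (_ : ¬ (f21 ∧ f22 ∧ f23)) (_ : ¬ (f31 ∧ f32 ∧ f33))
    (_ : ¬ (f11 ∧ f21 ∧ f31)) (_ : ¬ (f12 ∧ f22 ∧ f32)) (_ : ¬ (f13 ∧ f23 ∧ f33))
    (_ : ¬ (f11 ∧ f12 ∧ f21 ∧ f22)) (_ : ¬ (f11 ∧ f13 ∧ f21 ∧ f23)) (_ : ¬ (f12 ∧ f13 ∧ f22 ∧ f23))
    (_ : ¬ (f11 ∧ f12 ∧ f31 ∧ f32)) (_ : ¬ (f11 ∧ f13 ∧ f31 ∧ f33)) (_ : ¬ (f12 ∧ f13 ∧ f32 ∧ f33))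
    (_ : ¬ (f21 ∧ f22 ∧ f31 ∧ f32)) (_ : ¬ (f21 ∧ f23 ∧ f31 ∧ f33)) (_ : ¬ (f22 ∧ f23 ∧ f32 ∧ f33)) :
    (¬ f11 ∧ ¬ f22 ∧ ¬ f33) ∨ (¬ f11 ∧ ¬ f23 ∧ ¬ f32) ∨ (¬ f12 ∧ ¬ f21 ∧ ¬ f33) ∨
    (¬ f12 ∧ ¬ f23 ∧ ¬ f31) ∨ (¬ f13 ∧ ¬ f21 ∧ ¬ f32) ∨ (¬ f13 ∧ ¬ f22 ∧ ¬ f31) := by
  grind

theorem exch3 {p1 p2 p3 q1 q2 q3 : Fin d → ZMod 3} (hp12 : p1 ≠ p2) (hp13 : p1 ≠ p3)
    (hp23 : p2 ≠ p3) (hq12 : q1 ≠ q2) (hq13 : q1 ≠ q3) (hq23 : q2 ≠ q3)
    (c12 : p1 ≠ q2) (c13 : p1 ≠ q3) (c21 : p2 ≠ q1) (c23 : p2 ≠ q3) (c31 : p3 ≠ q1)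
    (c32 : p3 ≠ q2)
    (hs : ∀ x1 x2 x3, (x1 = p1 ∨ x1 = q1) → (x2 = p2 ∨ x2 = q2) → (x3 = p3 ∨ x3 = q3) →
      x1 + x2 + x3 ≠ 0)
    (hB : (ZM d).IsBase {p1, p2, p3}) :
    ∃ φ, BijOn φ {p1, p2, p3} {q1, q2, q3} ∧ ∀ X ⊆ ({p1, p2, p3} : Set (Fin d → ZMod 3)),
      (ZM d).IsBase ((({p1, p2, p3} : Set (Fin d → ZMod 3)) \ X) ∪ φ '' X) := by
  classical
  set φ : (Fin d → ZMod 3) → (Fin d → ZMod 3) :=
    fun x => if x = p1 then q1 else if x = p2 then q2 else q3 with hφ
  have e1 : φ p1 = q1 := by simp [hφ]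
  have e2 : φ p2 = q2 := by simp [hφ, hp12.symm]
  have e3 : φ p3 = q3 := by simp [hφ, hp13.symm, hp23.symm]
  refine ⟨φ, ⟨?_, ?_, ?_⟩, ?_⟩
  · intro x hx
    rcases hx with rfl | rfl | rfl
    · rw [e1]; simp
    · rw [e2]; simp
    · rw [e3]; simp
  · intro x hx y hy hxy
    rcases hx with rfl | rfl | rfl <;> rcases hy with rfl | rfl | rfl <;>
      simp only [e1, e2, e3] at hxy <;> first | rfl | exact absurd hxy ‹_› | exact absurd hxy.symm ‹_›
  · intro y hy
    rcases hy with rfl | rfl | rfl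
    · exact ⟨p1, by simp, e1⟩
    · exact ⟨p2, by simp, e2⟩
    · exact ⟨p3, by simp, e3⟩
  · intro X hX
    obtain ⟨x1, hx1, hx1'⟩ : ∃ x1, (p1 ∈ X → x1 = q1) ∧ (p1 ∉ X → x1 = p1) := by
      by_cases h : p1 ∈ X
      · exact ⟨q1, fun _ => rfl, fun h' => absurd h h'⟩
      · exact ⟨p1, fun h' => absurd h' h, fun _ => rfl⟩
    obtain ⟨x2, hx2, hx2'⟩ : ∃ x2, (p2 ∈ X → x2 = q2) ∧ (p2 ∉ X → x2 = p2) := by
      by_cases h : p2 ∈ X
      · exact ⟨q2, fun _ => rfl, fun h' => absurd h h'⟩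
      · exact ⟨p2, fun h' => absurd h' h, fun _ => rfl⟩
    obtain ⟨x3, hx3, hx3'⟩ : ∃ x3, (p3 ∈ X → x3 = q3) ∧ (p3 ∉ X → x3 = p3) := by
      by_cases h : p3 ∈ X
      · exact ⟨q3, fun _ => rfl, fun h' => absurd h h'⟩
      · exact ⟨p3, fun h' => absurd h' h, fun _ => rfl⟩
    have hS : (({p1, p2, p3} : Set (Fin d → ZMod 3)) \ X) ∪ φ '' X = {x1, x2, x3} := by
      ext y
      constructor
      · rintro (⟨hy, hyX⟩ | ⟨x, hx, rfl⟩)
        · rcases hy with rfl | rfl | rfl
          · rw [hx1' hyX]; simp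
          · rw [hx2' hyX]; simp
          · rw [hx3' hyX]; simp
        · rcases hX hx with rfl | rfl | rfl
          · rw [hx1 hx, e1]; simp
          · rw [hx2 hx, e2]; simp
          · rw [hx3 hx, e3]; simp
      · rintro (rfl | rfl | rfl)
        · by_cases h : p1 ∈ X
          · exact Or.inr ⟨p1, h, by rw [e1, hx1 h]⟩
          · exact Or.inl ⟨by rw [hx1' h]; simp, by rw [hx1' h]; exact h⟩
        · by_cases h : p2 ∈ X
          · exact Or.inr ⟨p2, h, by rw [e2, hx2 h]⟩
          · exact Or.inl ⟨by rw [hx2' h]; simp, by rw [hx2' h]; exact h⟩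
        · by_cases h : p3 ∈ X
          · exact Or.inr ⟨p3, h, by rw [e3, hx3 h]⟩
          · exact Or.inl ⟨by rw [hx3' h]; simp, by rw [hx3' h]; exact h⟩
    rw [hS]
    have o1 : x1 = p1 ∨ x1 = q1 := by
      by_cases h : p1 ∈ X
      · exact Or.inr (hx1 h)
      · exact Or.inl (hx1' h)
    have o2 : x2 = p2 ∨ x2 = q2 := by
      by_cases h : p2 ∈ X
      · exact Or.inr (hx2 h)
      · exact Or.inl (hx2' h)
    have o3 : x3 = p3 ∨ x3 = q3 := by
      by_cases h : p3 ∈ X
      · exact Or.inr (hx3 h)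
      · exact Or.inl (hx3' h)
    have hsum := hs x1 x2 x3 o1 o2 o3
    have d12 : x1 ≠ x2 := by
      rcases o1 with rfl | rfl <;> rcases o2 with rfl | rfl <;> first | assumption | exact (Ne.symm ‹_›)
    have d13 : x1 ≠ x3 := by
      rcases o1 with rfl | rfl <;> rcases o3 with rfl | rfl <;> first | assumption | exact (Ne.symm ‹_›)
    have d23 : x2 ≠ x3 := by
      rcases o2 with rfl | rfl <;> rcases o3 with rfl | rfl <;> first | assumption | exact (Ne.symm ‹_›)
    have he : ({x1, x2, x3} : Set (Fin d → ZMod 3)).encard = 3 :=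
      encard_eq_three.2 ⟨x1, x2, x3, d12, d13, d23, rfl⟩
    apply isBase_of hB
    · exact ⟨he.le, fun hL => hsum ((ln_iff d12 d13 d23).1 hL)⟩
    · rw [he]
      exact (encard_eq_three.2 ⟨p1, p2, p3, hp12, hp13, hp23, rfl⟩).symm

theorem base_sum {x y z : Fin d → ZMod 3} (hB : (ZM d).IsBase {x, y, z}) (hxy : x ≠ y)
    (hxz : x ≠ z) (hyz : y ≠ z) : x + y + z ≠ 0 := by
  intro h
  exact ((ZM_indep _).1 hB.indep).2 ((ln_iff hxy hxz hyz).2 h)

theorem disj3 {p1 p2 p3 q1 q2 q3 s t : Fin d → ZMod 3} (hp12 : p1 ≠ p2) (hp13 : p1 ≠ p3)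
    (hp23 : p2 ≠ p3) (hq12 : q1 ≠ q2) (hq13 : q1 ≠ q3) (hq23 : q2 ≠ q3)
    (c : ∀ p q, (p = p1 ∨ p = p2 ∨ p = p3) → (q = q1 ∨ q = q2 ∨ q = q3) → p ≠ q)
    (hs : s = p1 + p2 + p3) (ht : t = q1 + q2 + q3) (hs0 : s ≠ 0) (ht0 : t ≠ 0)
    (n1 : ¬ (q1 = p1 - s ∨ q1 = p1 + t)) (n2 : ¬ (q2 = p2 - s ∨ q2 = p2 + t))
    (n3 : ¬ (q3 = p3 - s ∨ q3 = p3 + t)) (hB : (ZM d).IsBase {p1, p2, p3}) :
    ∃ φ, BijOn φ {p1, p2, p3} {q1, q2, q3} ∧ ∀ X ⊆ ({p1, p2, p3} : Set (Fin d → ZMod 3)),
      (ZM d).IsBase ((({p1, p2, p3} : Set (Fin d → ZMod 3)) \ X) ∪ φ '' X) := by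
  subst hs ht
  push Not at n1 n2 n3
  refine exch3 hp12 hp13 hp23 hq12 hq13 hq23 (c _ _ (by simp) (by simp)) (c _ _ (by simp) (by simp))
    (c _ _ (by simp) (by simp)) (c _ _ (by simp) (by simp)) (c _ _ (by simp) (by simp))
    (c _ _ (by simp) (by simp)) ?_ hB
  rintro x1 x2 x3 (rfl | rfl) (rfl | rfl) (rfl | rfl) h
  · exact hs0 h
  · exact n3.1 (by linear_combination h)
  · exact n2.1 (by linear_combination h)
  · exact n1.2 (by linear_combination (-1 : Fin d → ZMod 3) * h)
  · exact n1.1 (by linear_combination h)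
  · exact n2.2 (by linear_combination (-1 : Fin d → ZMod 3) * h)
  · exact n3.2 (by linear_combination (-1 : Fin d → ZMod 3) * h)
  · exact ht0 h

theorem three_eq (v : Fin d → ZMod 3) : v + v + v = 0 := by
  funext i
  have : ∀ a : ZMod 3, a + a + a = 0 := by decide
  exact this (v i)

theorem row3 {p q1 q2 q3 s t : Fin d → ZMod 3} (hq12 : q1 ≠ q2) (hq13 : q1 ≠ q3) (hq23 : q2 ≠ q3) :
    ¬ ((q1 = p - s ∨ q1 = p + t) ∧ (q2 = p - s ∨ q2 = p + t) ∧ (q3 = p - s ∨ q3 = p + t)) := by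
  rintro ⟨h1 | h1, h2 | h2, h3 | h3⟩ <;>
    first
      | exact hq12 (h1.trans h2.symm)
      | exact hq13 (h1.trans h3.symm)
      | exact hq23 (h2.trans h3.symm)

theorem fiff {p q s t : Fin d → ZMod 3} :
    (q = p - s ∨ q = p + t) ↔ (p = q - (-s) ∨ p = q + (-t)) := by
  constructor
  · rintro (h | h)
    · left; rw [h]; abel
    · right; rw [h]; abel
  · rintro (h | h)
    · left; rw [h]; abel
    · right; rw [h]; abel

theorem col3 {q p1 p2 p3 s t : Fin d → ZMod 3} (hp12 : p1 ≠ p2) (hp13 : p1 ≠ p3) (hp23 : p2 ≠ p3) :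
    ¬ ((q = p1 - s ∨ q = p1 + t) ∧ (q = p2 - s ∨ q = p2 + t) ∧ (q = p3 - s ∨ q = p3 + t)) := by
  rw [fiff (p := p1), fiff (p := p2), fiff (p := p3)]
  exact row3 hp12 hp13 hp23

theorem cross3 {p p' q q' s t : Fin d → ZMod 3} (hp : p ≠ p') (hq : q ≠ q') :
    ¬ ((q = p - s ∨ q = p + t) ∧ (q' = p - s ∨ q' = p + t) ∧
      (q = p' - s ∨ q = p' + t) ∧ (q' = p' - s ∨ q' = p' + t)) := by
  have key : ∀ a b : Fin d → ZMod 3, a - s = b + t → a + t = b - s → a = b := by
    intro a b h1 h2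
    have h3 := three_eq (s + t)
    have h4 : (s + t) + (s + t) = 0 := by linear_combination -h1 + h2
    have h5 : s + t = 0 := by rw [h4, zero_add] at h3; exact h3
    linear_combination h1 + h5
  rintro ⟨h1 | h1, h2 | h2, h3 | h3, h4 | h4⟩
  all_goals first
    | exact hq (h1.trans h2.symm)
    | exact hq (h3.trans h4.symm)
    | exact hp (by linear_combination h3 - h1)
    | exact hp (key p p' (h1.symm.trans h3) (h2.symm.trans h4))
    | exact hp (key p' p (h3.symm.trans h1) (h4.symm.trans h2)).symm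

end zst



/-- The rank 3 matroid on `(ZMod 3)^d` whose 3-point lines are the zero-sum triples exists and is
strongly base-orderable. -/
theorem exists_zeroSum_matroid (d : ℕ) : ∃ M : Matroid (Fin d → ZMod 3), M.E = univ ∧
    (∀ I, M.Indep I ↔ I.encard ≤ 3 ∧
      ¬ ∃ a b c : Fin d → ZMod 3, a ≠ b ∧ a ≠ c ∧ b ≠ c ∧ a + b + c = 0 ∧ I = {a, b, c}) ∧
    SBO _ M := by
  refine ⟨ZM d, rfl, fun I => Iff.rfl, toFinite _, ?_⟩
  intro B₁ B₂ h₁ h₂
  have hcard : B₁.encard = B₂.encard := h₁.encard_eq_encard_of_isBase h₂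
  have hi₁ : Ind B₁ := (ZM_indep _).1 h₁.indep
  by_cases h3 : B₁.encard = 3
  · have hD : (B₁ \ B₂).encard = (B₂ \ B₁).encard := h₁.encard_sdiff_comm h₂
    have hsum₁ : (B₁ \ B₂).encard + (B₁ ∩ B₂).encard = B₁.encard := encard_sdiff_add_encard_inter _ _
    have hn1 : (B₁ \ B₂).encard = ((B₁ \ B₂).ncard : ℕ∞) := ((toFinite _).cast_ncard_eq).symm
    have hn2 : (B₁ ∩ B₂).encard = ((B₁ ∩ B₂).ncard : ℕ∞) := ((toFinite _).cast_ncard_eq).symm
    have hsumn : (B₁ \ B₂).ncard + (B₁ ∩ B₂).ncard = 3 := by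
      rw [hn1, hn2, h3] at hsum₁
      exact_mod_cast hsum₁
    have hm : (B₁ \ B₂).ncard = 0 ∨ (B₁ \ B₂).ncard = 1 ∨ (B₁ \ B₂).ncard = 2 ∨
      (B₁ \ B₂).ncard = 3 := by omega
    have hdec₁ : B₁ = (B₁ ∩ B₂) ∪ (B₁ \ B₂) := (inter_union_sdiff B₁ B₂).symm
    have hdec₂ : B₂ = (B₁ ∩ B₂) ∪ (B₂ \ B₁) := by
      rw [inter_comm]; exact (inter_union_sdiff B₂ B₁).symm
    rcases hm with hm | hm | hm | hm
    · have h0 : B₁ \ B₂ = ∅ := by
        rw [hm] at hn1
        exact encard_eq_zero.1 hn1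
      have hsub : B₁ ⊆ B₂ := sdiff_eq_empty.1 h0
      have : B₁ = B₂ := (toFinite _).eq_of_subset_of_encard_le hsub hcard.symm.le
      subst this
      refine ⟨id, bijOn_id _, fun X hX => ?_⟩
      rw [image_id, sdiff_union_of_subset hX]
      exact h₁
    · -- one exchange
      have hD1 : (B₁ \ B₂).encard = 1 := by rw [hn1, hm]; rfl
      have hD2 : (B₂ \ B₁).encard = 1 := by rw [← hD, hD1]
      have hC : (B₁ ∩ B₂).encard = 2 := by
        rw [hn2, show (B₁ ∩ B₂).ncard = 2 by omega]; rfl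
      obtain ⟨p, hp⟩ := encard_eq_one.1 hD1
      obtain ⟨q, hq⟩ := encard_eq_one.1 hD2
      obtain ⟨i, j, hij, hCij⟩ := encard_eq_two.1 hC
      have hpm : p ∈ B₁ \ B₂ := by rw [hp]; rfl
      have hqm : q ∈ B₂ \ B₁ := by rw [hq]; rfl
      have him : i ∈ B₁ ∩ B₂ := by rw [hCij]; simp
      have hjm : j ∈ B₁ ∩ B₂ := by rw [hCij]; simp
      have e₁ : B₁ = {i, j, p} := by
        rw [hdec₁, hCij, hp]; ext x; simp only [mem_union, mem_insert_iff, mem_singleton_iff]; tauto
      have e₂ : B₂ = {i, j, q} := by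
        rw [hdec₂, hCij, hq]; ext x; simp only [mem_union, mem_insert_iff, mem_singleton_iff]; tauto
      have nip : i ≠ p := fun h => hpm.2 (h ▸ him.2)
      have njp : j ≠ p := fun h => hpm.2 (h ▸ hjm.2)
      have niq : i ≠ q := fun h => hqm.2 (h ▸ him.1)
      have njq : j ≠ q := fun h => hqm.2 (h ▸ hjm.1)
      have s₁ := base_sum (e₁ ▸ h₁) hij nip njp
      have s₂ := base_sum (e₂ ▸ h₂) hij niq njq
      rw [e₁, e₂]
      refine exch3 hij nip njp hij niq njq hij niq hij.symm njq nip.symm njp.symm ?_ (e₁ ▸ h₁)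
      rintro x1 x2 x3 (rfl | rfl) (rfl | rfl) (rfl | rfl)
      all_goals assumption
    · -- two exchanges
      have hD1 : (B₁ \ B₂).encard = 2 := by rw [hn1, hm]; rfl
      have hD2 : (B₂ \ B₁).encard = 2 := by rw [← hD, hD1]
      have hC : (B₁ ∩ B₂).encard = 1 := by
        rw [hn2, show (B₁ ∩ B₂).ncard = 1 by omega]; rfl
      obtain ⟨p1, p2, hpp, hp⟩ := encard_eq_two.1 hD1
      obtain ⟨q1, q2, hqq, hq⟩ := encard_eq_two.1 hD2
      obtain ⟨i, hCi⟩ := encard_eq_one.1 hC
      have hp1 : p1 ∈ B₁ \ B₂ := by rw [hp]; simp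
      have hp2 : p2 ∈ B₁ \ B₂ := by rw [hp]; simp
      have hq1 : q1 ∈ B₂ \ B₁ := by rw [hq]; simp
      have hq2 : q2 ∈ B₂ \ B₁ := by rw [hq]; simp
      have him : i ∈ B₁ ∩ B₂ := by rw [hCi]; rfl
      have e₁ : B₁ = {i, p1, p2} := by
        rw [hdec₁, hCi, hp]; ext x; simp only [mem_union, mem_insert_iff, mem_singleton_iff]
      have e₂ : B₂ = {i, q1, q2} := by
        rw [hdec₂, hCi, hq]; ext x; simp only [mem_union, mem_insert_iff, mem_singleton_iff]
      have e₂' : B₂ = {i, q2, q1} := by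
        rw [e₂]; ext x; simp only [mem_insert_iff, mem_singleton_iff]; tauto
      have nip1 : i ≠ p1 := fun h => hp1.2 (h ▸ him.2)
      have nip2 : i ≠ p2 := fun h => hp2.2 (h ▸ him.2)
      have niq1 : i ≠ q1 := fun h => hq1.2 (h ▸ him.1)
      have niq2 : i ≠ q2 := fun h => hq2.2 (h ▸ him.1)
      have npq : ∀ {p q}, p ∈ B₁ \ B₂ → q ∈ B₂ \ B₁ → p ≠ q := fun ha hb h => ha.2 (h ▸ hb.1)
      have s₁ := base_sum (e₁ ▸ h₁) nip1 nip2 hpp
      have s₂ := base_sum (e₂ ▸ h₂) niq1 niq2 hqq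
      have s₂' : i + q2 + q1 ≠ 0 := by
        intro h; apply s₂; rw [← h]; abel
      by_cases hA : i + q1 + p2 ≠ 0 ∧ i + p1 + q2 ≠ 0
      · obtain ⟨a1, a2⟩ := hA
        rw [e₁, e₂]
        refine exch3 nip1 nip2 hpp niq1 niq2 hqq niq1 niq2 nip1.symm (npq hp1 hq2) nip2.symm
          (npq hp2 hq1) ?_ (e₁ ▸ h₁)
        rintro x1 x2 x3 (rfl | rfl) (rfl | rfl) (rfl | rfl)
        all_goals assumption
      · have hB : i + q2 + p2 ≠ 0 ∧ i + p1 + q1 ≠ 0 := by
          constructor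
          · intro hb
            apply hA
            constructor
            · intro ha
              apply hqq
              have : i + q1 + p2 = i + q2 + p2 := by rw [ha, hb]
              exact add_left_cancel (add_right_cancel this)
            · intro ha
              apply hpp
              have : i + p1 + q2 = i + p2 + q2 := by rw [ha, ← hb]; abel
              exact add_left_cancel (add_right_cancel this)
          · intro hb
            apply hA
            constructor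
            · intro ha
              apply hpp
              have : i + p1 + q1 = i + p2 + q1 := by rw [hb, ← ha]; abel
              exact add_left_cancel (add_right_cancel this)
            · intro ha
              apply hqq
              have : i + p1 + q1 = i + p1 + q2 := by rw [hb, ha]
              exact add_left_cancel this
        obtain ⟨a1, a2⟩ := hB
        rw [e₁, e₂']
        refine exch3 nip1 nip2 hpp niq2 niq1 hqq.symm niq2 niq1 nip1.symm (npq hp1 hq1) nip2.symm
          (npq hp2 hq2) ?_ (e₁ ▸ h₁)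
        rintro x1 x2 x3 (rfl | rfl) (rfl | rfl) (rfl | rfl)
        all_goals assumption
    · -- three exchanges
      have hD1 : (B₁ \ B₂).encard = 3 := by rw [hn1, hm]; rfl
      have hD2 : (B₂ \ B₁).encard = 3 := by rw [← hD, hD1]
      have hE₁ : B₁ \ B₂ = B₁ := (toFinite _).eq_of_subset_of_encard_le sdiff_subset
        (by rw [hD1, h3])
      have hE₂ : B₂ \ B₁ = B₂ := (toFinite _).eq_of_subset_of_encard_le sdiff_subset
        (by rw [hD2, ← hcard, h3])
      obtain ⟨p1, p2, p3, hp12, hp13, hp23, e₁⟩ := encard_eq_three.1 h3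
      obtain ⟨q1, q2, q3, hq12, hq13, hq23, e₂⟩ := encard_eq_three.1 (hcard ▸ h3)
      have npq : ∀ {p q}, p ∈ B₁ → q ∈ B₂ → p ≠ q := fun ha hb h => by
        rw [← hE₁] at ha; exact ha.2 (h ▸ hb)
      have hp1 : p1 ∈ B₁ := by rw [e₁]; simp
      have hp2 : p2 ∈ B₁ := by rw [e₁]; simp
      have hp3 : p3 ∈ B₁ := by rw [e₁]; simp
      have hq1 : q1 ∈ B₂ := by rw [e₂]; simp
      have hq2 : q2 ∈ B₂ := by rw [e₂]; simp
      have hq3 : q3 ∈ B₂ := by rw [e₂]; simp
      have hs := base_sum (e₁ ▸ h₁) hp12 hp13 hp23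
      have ht := base_sum (e₂ ▸ h₂) hq12 hq13 hq23
      obtain ⟨s, hsd⟩ : ∃ s, s = p1 + p2 + p3 := ⟨_, rfl⟩
      obtain ⟨t, htd⟩ : ∃ t, t = q1 + q2 + q3 := ⟨_, rfl⟩
      have hs0 : s ≠ 0 := hsd ▸ hs
      have ht0 : t ≠ 0 := htd ▸ ht
      have cc : ∀ {p q}, (p = p1 ∨ p = p2 ∨ p = p3) → (q = q1 ∨ q = q2 ∨ q = q3) → p ≠ q := by
        intro p q hp hq
        apply npq
        · rw [e₁]; exact hp
        · rw [e₂]; exact hq
      have core := prop_core _ _ _ _ _ _ _ _ _
        (row3 (p := p1) (s := s) (t := t) hq12 hq13 hq23)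
        (row3 (p := p2) (s := s) (t := t) hq12 hq13 hq23)
        (row3 (p := p3) (s := s) (t := t) hq12 hq13 hq23)
        (col3 hp12 hp13 hp23) (col3 hp12 hp13 hp23) (col3 hp12 hp13 hp23)
        (cross3 hp12 hq12) (cross3 hp12 hq13) (cross3 hp12 hq23)
        (cross3 hp13 hq12) (cross3 hp13 hq13) (cross3 hp13 hq23)
        (cross3 hp23 hq12) (cross3 hp23 hq13) (cross3 hp23 hq23)
      rw [e₁, e₂]
      rcases core with ⟨a, b, c⟩ | ⟨a, b, c⟩ | ⟨a, b, c⟩ | ⟨a, b, c⟩ | ⟨a, b, c⟩ | ⟨a, b, c⟩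
      · exact disj3 hp12 hp13 hp23 hq12 hq13 hq23 (fun p q h h' => cc h h') hsd htd hs0 ht0 a b c
          (e₁ ▸ h₁)
      · have e : ({q1, q2, q3} : Set (Fin d → ZMod 3)) = {q1, q3, q2} := by
          ext x; simp only [mem_insert_iff, mem_singleton_iff]; tauto
        rw [e]
        exact disj3 hp12 hp13 hp23 hq13 hq12 hq23.symm (fun p q h h' => cc h (by tauto)) hsd
          (by rw [htd]; abel) hs0 ht0 a b c (e₁ ▸ h₁)
      · have e : ({q1, q2, q3} : Set (Fin d → ZMod 3)) = {q2, q1, q3} := by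
          ext x; simp only [mem_insert_iff, mem_singleton_iff]; tauto
        rw [e]
        exact disj3 hp12 hp13 hp23 hq12.symm hq23 hq13 (fun p q h h' => cc h (by tauto)) hsd
          (by rw [htd]; abel) hs0 ht0 a b c (e₁ ▸ h₁)
      · have e : ({q1, q2, q3} : Set (Fin d → ZMod 3)) = {q2, q3, q1} := by
          ext x; simp only [mem_insert_iff, mem_singleton_iff]; tauto
        rw [e]
        exact disj3 hp12 hp13 hp23 hq23 hq12.symm hq13.symm (fun p q h h' => cc h (by tauto)) hsd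
          (by rw [htd]; abel) hs0 ht0 a b c (e₁ ▸ h₁)
      · have e : ({q1, q2, q3} : Set (Fin d → ZMod 3)) = {q3, q1, q2} := by
          ext x; simp only [mem_insert_iff, mem_singleton_iff]; tauto
        rw [e]
        exact disj3 hp12 hp13 hp23 hq13.symm hq23.symm hq12 (fun p q h h' => cc h (by tauto)) hsd
          (by rw [htd]; abel) hs0 ht0 a b c (e₁ ▸ h₁)
      · have e : ({q1, q2, q3} : Set (Fin d → ZMod 3)) = {q3, q2, q1} := by
          ext x; simp only [mem_insert_iff, mem_singleton_iff]; tauto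
        rw [e]
        exact disj3 hp12 hp13 hp23 hq23.symm hq13.symm hq12.symm (fun p q h h' => cc h (by tauto))
          hsd (by rw [htd]; abel) hs0 ht0 a b c (e₁ ▸ h₁)
  · have hle : B₁.encard ≤ 2 := by
      have h4 : B₁.encard < 3 := lt_of_le_of_ne hi₁.1 h3
      rw [← (toFinite B₁).cast_ncard_eq] at h4 ⊢
      have h5 : B₁.ncard < 3 := by exact_mod_cast h4
      have h6 : B₁.ncard ≤ 2 := by omega
      exact_mod_cast h6
    classical
    have hD : (B₁ \ B₂).encard = (B₂ \ B₁).encard := h₁.encard_sdiff_comm h₂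
    obtain ⟨f, hf⟩ := (toFinite (B₁ \ B₂)).exists_bijOn_of_encard_eq hD
    set φ : (Fin d → ZMod 3) → (Fin d → ZMod 3) := fun x => if x ∈ B₂ then x else f x with hφ
    have hφ1 : ∀ x, x ∈ B₂ → φ x = x := fun x hx => if_pos hx
    have hφ2 : ∀ x, x ∉ B₂ → φ x = f x := fun x hx => if_neg hx
    have hbij : BijOn φ B₁ B₂ := by
      refine ⟨?_, ?_, ?_⟩
      · intro x hx
        by_cases h : x ∈ B₂
        · rw [hφ1 x h]; exact h
        · rw [hφ2 x h]; exact (hf.mapsTo ⟨hx, h⟩).1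
      · intro x hx y hy hxy
        by_cases h : x ∈ B₂ <;> by_cases h' : y ∈ B₂
        · rwa [hφ1 x h, hφ1 y h'] at hxy
        · rw [hφ1 x h, hφ2 y h'] at hxy
          exact absurd hx (hxy ▸ (hf.mapsTo ⟨hy, h'⟩).2)
        · rw [hφ2 x h, hφ1 y h'] at hxy
          exact absurd hy (hxy ▸ (hf.mapsTo ⟨hx, h⟩).2)
        · rw [hφ2 x h, hφ2 y h'] at hxy
          exact hf.injOn ⟨hx, h⟩ ⟨hy, h'⟩ hxy
      · intro y hy
        by_cases h : y ∈ B₁
        · exact ⟨y, h, hφ1 y hy⟩
        · obtain ⟨x, hx, hxy⟩ := hf.surjOn ⟨hy, h⟩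
          exact ⟨x, hx.1, by rw [hφ2 x hx.2]; exact hxy⟩
    refine ⟨φ, hbij, fun X hX => ?_⟩
    have he := exch_encard hbij (fun x _ hx => hφ1 x hx) hX
    exact isBase_of h₁ (ind_of_le_two (he.le.trans hle)) he


/-! ### Induction through directed graphs -/


theorem rado_abs {ι T : Type} [DecidableEq ι] [DecidableEq T] [Fintype ι] (ρ : Finset T → ℤ)
    (hmono : ∀ A B, A ⊆ B → ρ A ≤ ρ B) (hsub : ∀ A B, ρ (A ∪ B) + ρ (A ∩ B) ≤ ρ A + ρ B)
    (hle : ∀ A, ρ A ≤ A.card) : ∀ (n : ℕ) (Γ : ι → Finset T), ∑ i, (Γ i).card = n →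
    (∀ Q : Finset ι, (Q.card : ℤ) ≤ ρ (Q.biUnion Γ)) →
    ∃ m : ι → T, (∀ i, m i ∈ Γ i) ∧ (Fintype.card ι : ℤ) ≤ ρ (Finset.univ.image m) := by
  intro n
  induction n using Nat.strong_induction_on with
  | _ n ih =>
  intro Γ hn hQ
  by_cases h : ∀ i, (Γ i).card ≤ 1
  · have h1 : ∀ i, ∃ t, Γ i = {t} := by
      intro i
      have h2 := hQ {i}
      have h3 := hle (({i} : Finset ι).biUnion Γ)
      simp only [Finset.card_singleton, Finset.singleton_biUnion] at h2 h3
      have h4 := h i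
      exact Finset.card_eq_one.1 (by push_cast at h2; omega)
    choose m hm using h1
    refine ⟨m, fun i => by rw [hm i]; exact Finset.mem_singleton_self _, ?_⟩
    have h5 := hQ Finset.univ
    have h6 : Finset.univ.biUnion Γ = Finset.univ.image m := by
      ext t
      simp [hm, eq_comm]
    rw [h6] at h5
    simpa using h5
  · push Not at h
    obtain ⟨i, hi⟩ := h
    obtain ⟨y1, hy1, y2, hy2, hne⟩ := Finset.one_lt_card.1 hi
    have key : ∀ y ∈ Γ i, (∀ Q : Finset ι, (Q.card : ℤ) ≤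
        ρ (Q.biUnion (Function.update Γ i ((Γ i).erase y)))) →
        ∃ m : ι → T, (∀ i, m i ∈ Γ i) ∧ (Fintype.card ι : ℤ) ≤ ρ (Finset.univ.image m) := by
      intro y hy hc
      obtain ⟨m, hm1, hm2⟩ := ih _ (by
        rw [← hn]
        refine Finset.sum_lt_sum (fun j _ => ?_) ⟨i, Finset.mem_univ i, ?_⟩
        · by_cases hj : j = i
          · subst hj
            rw [Function.update_self]
            exact Finset.card_le_card (Finset.erase_subset _ _)
          · rw [Function.update_of_ne hj]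
        · rw [Function.update_self]
          exact Finset.card_erase_lt_of_mem hy) (Function.update Γ i ((Γ i).erase y)) rfl hc
      refine ⟨m, fun j => ?_, hm2⟩
      have := hm1 j
      by_cases hj : j = i
      · subst hj
        rw [Function.update_self] at this
        exact Finset.mem_of_mem_erase this
      · rwa [Function.update_of_ne hj] at this
    by_cases c1 : ∀ Q : Finset ι, (Q.card : ℤ) ≤
        ρ (Q.biUnion (Function.update Γ i ((Γ i).erase y1)))
    · exact key y1 hy1 c1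
    by_cases c2 : ∀ Q : Finset ι, (Q.card : ℤ) ≤
        ρ (Q.biUnion (Function.update Γ i ((Γ i).erase y2)))
    · exact key y2 hy2 c2
    exfalso
    have viol : ∀ y, ¬ (∀ Q : Finset ι, (Q.card : ℤ) ≤
        ρ (Q.biUnion (Function.update Γ i ((Γ i).erase y)))) →
        ∃ R : Finset ι, i ∉ R ∧ ρ (R.biUnion Γ ∪ (Γ i).erase y) ≤ R.card := by
      intro y hc
      push Not at hc
      obtain ⟨Q, hQ1⟩ := hc
      have hiQ : i ∈ Q := by
        by_contra hiQ
        have : Q.biUnion (Function.update Γ i ((Γ i).erase y)) = Q.biUnion Γ := by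
          refine Finset.biUnion_congr rfl fun j hj => ?_
          rw [Function.update_of_ne]
          rintro rfl
          exact hiQ hj
        rw [this] at hQ1
        exact absurd (hQ Q) (not_le.2 hQ1)
      refine ⟨Q.erase i, Finset.notMem_erase _ _, ?_⟩
      have e : Q.biUnion (Function.update Γ i ((Γ i).erase y)) =
          (Q.erase i).biUnion Γ ∪ (Γ i).erase y := by
        conv_lhs => rw [← Finset.insert_erase hiQ]
        rw [Finset.biUnion_insert, Function.update_self, Finset.union_comm]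
        congr 1
        refine Finset.biUnion_congr rfl fun j hj => ?_
        rw [Function.update_of_ne (Finset.ne_of_mem_erase hj)]
      rw [e] at hQ1
      have := Finset.card_erase_add_one hiQ
      omega
    obtain ⟨R1, hi1, hr1⟩ := viol y1 c1
    obtain ⟨R2, hi2, hr2⟩ := viol y2 c2
    have s := hsub (R1.biUnion Γ ∪ (Γ i).erase y1) (R2.biUnion Γ ∪ (Γ i).erase y2)
    have a1 := hQ (insert i (R1 ∪ R2))
    have a2 := hQ (R1 ∩ R2)
    have b1 := hmono ((insert i (R1 ∪ R2)).biUnion Γ)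
      ((R1.biUnion Γ ∪ (Γ i).erase y1) ∪ (R2.biUnion Γ ∪ (Γ i).erase y2)) (by
        intro t ht
        simp only [Finset.mem_biUnion, Finset.mem_insert, Finset.mem_union, Finset.mem_erase] at ht ⊢
        obtain ⟨j, hj | hj | hj, hjt⟩ := ht
        · subst hj
          by_cases h1 : t = y1
          · exact Or.inr (Or.inr ⟨by rw [h1]; exact hne, hjt⟩)
          · exact Or.inl (Or.inr ⟨h1, hjt⟩)
        · exact Or.inl (Or.inl ⟨j, hj, hjt⟩)
        · exact Or.inr (Or.inl ⟨j, hj, hjt⟩))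
    have b2 := hmono ((R1 ∩ R2).biUnion Γ)
      ((R1.biUnion Γ ∪ (Γ i).erase y1) ∩ (R2.biUnion Γ ∪ (Γ i).erase y2)) (by
        intro t ht
        simp only [Finset.mem_biUnion, Finset.mem_inter, Finset.mem_union, Finset.mem_erase] at ht ⊢
        obtain ⟨j, ⟨hj1, hj2⟩, hjt⟩ := ht
        exact ⟨Or.inl ⟨j, hj1, hjt⟩, Or.inl ⟨j, hj2, hjt⟩⟩)
    have c3 : (insert i (R1 ∪ R2)).card = (R1 ∪ R2).card + 1 :=
      Finset.card_insert_of_notMem (by simp [hi1, hi2])
    have c4 := Finset.card_union_add_card_inter R1 R2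
    omega

/-- From a partial injection to a linking. -/
theorem linked_of_map {τ : Type} [Finite τ] {G : τ → τ → Prop} : ∀ (n : ℕ) (m : τ → τ)
    (X : Set τ), {s | s ∉ X ∧ m s ≠ s}.ncard = n → InjOn m Xᶜ →
    (∀ t ∉ X, m t = t ∨ G (m t) t) →
    ∃ P : Set (List τ), (∀ p ∈ P, IsPath G p) ∧ (∀ p ∈ P, ∀ q ∈ P, p ≠ q → List.Disjoint p q) ∧
      {x | ∃ p ∈ P, p.head? = some x} = X ∧ {y | ∃ p ∈ P, p.getLast? = some y} = (m '' Xᶜ)ᶜ ∧
      ∀ p ∈ P, ∀ s ∈ p, s ∈ X ∨ m s ≠ s := by
  classical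
  intro n
  induction n using Nat.strong_induction_on with
  | _ n ih =>
  intro m X hn hinj hG
  by_cases hX : X ∩ m '' Xᶜ = ∅
  · have h1 : m '' Xᶜ = Xᶜ := by
      apply Set.eq_of_subset_of_ncard_le
      · intro y hy hyX
        have : y ∈ X ∩ m '' Xᶜ := ⟨hyX, hy⟩
        rw [hX] at this
        exact this
      · rw [hinj.ncard_image]
      · exact Set.toFinite _
    refine ⟨(fun x => [x]) '' X, ?_, ?_, ?_, ?_, ?_⟩
    · rintro _ ⟨x, hx, rfl⟩
      exact ⟨by simp, by simp, List.isChain_singleton x⟩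
    · rintro _ ⟨x, hx, rfl⟩ _ ⟨y, hy, rfl⟩ hxy
      simp only [ne_eq, List.cons.injEq, and_true] at hxy
      intro a ha hb
      simp only [List.mem_singleton] at ha hb
      exact hxy (ha.symm.trans hb)
    · ext x
      simp
    · rw [h1, compl_compl]
      ext x
      simp
    · rintro _ ⟨x, hx, rfl⟩ s hs
      rw [List.mem_singleton] at hs
      exact Or.inl (hs ▸ hx)
  · obtain ⟨x, hxX, t, htX, hmt⟩ := Set.nonempty_iff_ne_empty.2 hX
    have htX' : t ∉ X := htX
    have hxt : x ≠ t := by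
      rintro rfl
      exact htX hxX
    set X' : Set τ := insert t (X \ {x}) with hX'
    set m' : τ → τ := Function.update m x x with hm'
    have hm'x : m' x = x := by rw [hm', Function.update_self]
    have hm'n : ∀ s, s ≠ x → m' s = m s := fun s hs => by
      rw [hm', Function.update_of_ne hs]
    have hxX' : x ∉ X' := by
      rw [hX']
      simp [hxt]
    have memX' : ∀ s, s ∉ X' ↔ s = x ∨ (s ∉ X ∧ s ≠ t) := by
      intro s
      rw [hX']
      simp only [mem_insert_iff, mem_sdiff, mem_singleton_iff, not_or, not_and, not_not]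
      constructor
      · rintro ⟨h1, h2⟩
        by_cases hs : s ∈ X
        · exact Or.inl (h2 hs)
        · exact Or.inr ⟨hs, h1⟩
      · rintro (rfl | ⟨h1, h2⟩)
        · exact ⟨hxt, fun _ => rfl⟩
        · exact ⟨h2, fun h => absurd h h1⟩
    have hinj' : InjOn m' X'ᶜ := by
      intro a ha b hb hab
      rcases (memX' a).1 ha with rfl | ⟨ha1, ha2⟩ <;> rcases (memX' b).1 hb with rfl | ⟨hb1, hb2⟩
      · rfl
      · have hbx : b ≠ a := by rintro rfl; exact hb1 hxX
        rw [hm'x, hm'n b hbx, ← hmt] at hab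
        exact absurd (hinj htX hb1 hab).symm hb2
      · have hax : a ≠ b := by rintro rfl; exact ha1 hxX
        rw [hm'x, hm'n a hax, ← hmt] at hab
        exact absurd (hinj ha1 htX hab) ha2
      · have hax : a ≠ x := by rintro rfl; exact ha1 hxX
        have hbx : b ≠ x := by rintro rfl; exact hb1 hxX
        rw [hm'n a hax, hm'n b hbx] at hab
        exact hinj ha1 hb1 hab
    have hG' : ∀ s ∉ X', m' s = s ∨ G (m' s) s := by
      intro s hs
      rcases (memX' s).1 hs with rfl | ⟨h1, h2⟩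
      · exact Or.inl hm'x
      · have hsx : s ≠ x := by rintro rfl; exact h1 hxX
        rw [hm'n s hsx]
        exact hG s h1
    have himg : m' '' X'ᶜ = m '' Xᶜ := by
      ext y
      constructor
      · rintro ⟨s, hs, rfl⟩
        rcases (memX' s).1 hs with rfl | ⟨h1, h2⟩
        · rw [hm'x]
          exact ⟨t, htX, hmt⟩
        · have hsx : s ≠ x := by rintro rfl; exact h1 hxX
          rw [hm'n s hsx]
          exact ⟨s, h1, rfl⟩
      · rintro ⟨s, hs, rfl⟩
        by_cases hst : s = t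
        · subst hst
          exact ⟨x, hxX', by rw [hm'x, hmt]⟩
        · have hsx : s ≠ x := by rintro rfl; exact hs hxX
          exact ⟨s, (memX' s).2 (Or.inr ⟨hs, hst⟩), hm'n s hsx⟩
    have hlt : {s | s ∉ X' ∧ m' s ≠ s}.ncard < n := by
      rw [← hn]
      apply Set.ncard_lt_ncard _ (Set.toFinite _)
      constructor
      · rintro s ⟨hs, hms⟩
        rcases (memX' s).1 hs with rfl | ⟨h1, h2⟩
        · exact absurd hm'x hms
        · have hsx : s ≠ x := by rintro rfl; exact h1 hxX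
          rw [hm'n s hsx] at hms
          exact ⟨h1, hms⟩
      · intro hsub
        have ht : t ∈ {s | s ∉ X ∧ m s ≠ s} := ⟨htX', by rw [hmt]; exact hxt⟩
        have := hsub ht
        exact this.1 (by rw [hX']; exact mem_insert _ _)
    obtain ⟨P', hP1, hP2, hP3, hP4, hP5⟩ := ih _ hlt m' X' rfl hinj' hG'
    have hxP : ∀ p ∈ P', x ∉ p := by
      intro p hp hxp
      rcases hP5 p hp x hxp with h | h
      · exact hxX' h
      · exact h hm'x
    set F : List τ → List τ := fun p => if p.head? = some t then x :: p else p with hF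
    have hFt : ∀ p, p.head? = some t → F p = x :: p := fun p hp => by rw [hF]; simp [hp]
    have hFn : ∀ p, p.head? ≠ some t → F p = p := fun p hp => by rw [hF]; simp [hp]
    have htp : ∃ p ∈ P', p.head? = some t := by
      have : t ∈ {x | ∃ p ∈ P', p.head? = some x} := by
        rw [hP3, hX']
        exact mem_insert _ _
      exact this
    have memF : ∀ p ∈ P', ∀ s ∈ F p, (s = x ∧ p.head? = some t) ∨ s ∈ p := by
      intro p hp s hs
      by_cases h : p.head? = some t
      · rw [hFt p h, List.mem_cons] at hs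
        rcases hs with hs | hs
        · exact Or.inl ⟨hs, h⟩
        · exact Or.inr hs
      · rw [hFn p h] at hs
        exact Or.inr hs
    have uniqt : ∀ p ∈ P', ∀ q ∈ P', p.head? = some t → q.head? = some t → p = q := by
      intro p hp q hq h1 h2
      by_contra hne
      exact hP2 p hp q hq hne (List.mem_of_mem_head? h1) (List.mem_of_mem_head? h2)
    refine ⟨F '' P', ?_, ?_, ?_, ?_, ?_⟩
    · rintro _ ⟨p, hp, rfl⟩
      obtain ⟨h1, h2, h3⟩ := hP1 p hp
      by_cases h : p.head? = some t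
      · rw [hFt p h]
        refine ⟨by simp, List.nodup_cons.2 ⟨hxP p hp, h2⟩, List.isChain_cons.2 ⟨?_, h3⟩⟩
        intro y hy
        rw [h] at hy
        simp only [Option.mem_def, Option.some.injEq] at hy
        subst hy
        rcases hG t htX with h4 | h4
        · rw [hmt] at h4
          exact absurd h4 hxt
        · rwa [hmt] at h4
      · rw [hFn p h]
        exact ⟨h1, h2, h3⟩
    · rintro _ ⟨p, hp, rfl⟩ _ ⟨q, hq, rfl⟩ hpq
      have hpq' : p ≠ q := by rintro rfl; exact hpq rfl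
      intro s hs1 hs2
      rcases memF p hp s hs1 with ⟨rfl, h1⟩ | h1
      · rcases memF q hq s hs2 with ⟨_, h2⟩ | h2
        · exact hpq' (uniqt p hp q hq h1 h2)
        · exact hxP q hq h2
      · rcases memF q hq s hs2 with ⟨rfl, h2⟩ | h2
        · exact hxP p hp h1
        · exact hP2 p hp q hq hpq' h1 h2
    · ext s
      constructor
      · rintro ⟨_, ⟨p, hp, rfl⟩, hs⟩
        by_cases h : p.head? = some t
        · rw [hFt p h] at hs
          simp only [List.head?_cons, Option.some.injEq] at hs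
          exact hs ▸ hxX
        · rw [hFn p h] at hs
          have : s ∈ X' := by
            rw [← hP3]
            exact ⟨p, hp, hs⟩
          rw [hX'] at this
          rcases this with rfl | h1
          · exact absurd hs h
          · exact h1.1
      · intro hs
        by_cases hsx : s = x
        · obtain ⟨p, hp, hpt⟩ := htp
          exact ⟨F p, ⟨p, hp, rfl⟩, by rw [hFt p hpt, hsx]; rfl⟩
        · have : s ∈ X' := by
            rw [hX']
            exact Or.inr ⟨hs, hsx⟩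
          rw [← hP3] at this
          obtain ⟨p, hp, hps⟩ := this
          have h : p.head? ≠ some t := by
            rw [hps]
            simp only [ne_eq, Option.some.injEq]
            rintro rfl
            exact htX hs
          exact ⟨F p, ⟨p, hp, rfl⟩, by rw [hFn p h]; exact hps⟩
    · rw [← himg, ← hP4]
      ext s
      have hlast : ∀ p ∈ P', (F p).getLast? = p.getLast? := by
        intro p hp
        by_cases h : p.head? = some t
        · rw [hFt p h]
          obtain ⟨h1, -, -⟩ := hP1 p hp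
          cases p with
          | nil => exact absurd rfl h1
          | cons a l => rfl
        · rw [hFn p h]
      constructor
      · rintro ⟨_, ⟨p, hp, rfl⟩, hs⟩
        rw [hlast p hp] at hs
        exact ⟨p, hp, hs⟩
      · rintro ⟨p, hp, hs⟩
        exact ⟨F p, ⟨p, hp, rfl⟩, by rw [hlast p hp]; exact hs⟩
    · rintro _ ⟨p, hp, rfl⟩ s hs
      rcases memF p hp s hs with ⟨rfl, _⟩ | h1
      · exact Or.inl hxX
      · have hsx : s ≠ x := by rintro rfl; exact hxP p hp h1
        rcases hP5 p hp s h1 with h2 | h2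
        · rw [hX'] at h2
          rcases h2 with rfl | h2
          · right
            rw [hmt]
            exact hxt
          · exact Or.inl h2.1
        · rw [hm'n s hsx] at h2
          exact Or.inr h2

/-- From a linking to a partial injection. -/
theorem map_of_linked {τ : Type} {G : τ → τ → Prop} {X Y : Set τ} (h : Linked G X Y) :
    (∃ m : τ → τ, InjOn m Xᶜ ∧ (∀ t ∉ X, m t = t ∨ G (m t) t) ∧ ∀ t ∉ X, m t ∉ Y) ∧
    ∃ j : τ → τ, InjOn j X ∧ MapsTo j X Y := by
  classical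
  obtain ⟨P, h1, h2, h3, h4⟩ := h
  have uniq : ∀ p ∈ P, ∀ q ∈ P, ∀ s, s ∈ p → s ∈ q → p = q := by
    intro p hp q hq s hs1 hs2
    by_contra hne
    exact h2 p hp q hq hne hs1 hs2
  refine ⟨?_, ?_⟩
  · -- predecessor
    have pre : ∀ t ∉ X, ∀ p ∈ P, t ∈ p → ∃ s l1 l2, p = l1 ++ s :: t :: l2 := by
      intro t ht p hp htp
      obtain ⟨l1, l2, rfl⟩ := List.append_of_mem htp
      rcases List.eq_nil_or_concat l1 with rfl | ⟨l, s, rfl⟩
      · exfalso
        apply ht
        rw [← h3]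
        exact ⟨_, hp, by simp⟩
      · exact ⟨s, l, l2, by simp⟩
    have hm : ∀ t, ∃ s, t ∉ X → ((s = t ∧ ∀ p ∈ P, t ∉ p) ∨ ∃ p ∈ P, ∃ l1 l2, p = l1 ++ s :: t :: l2) := by
      intro t
      by_cases ht : t ∈ X
      · exact ⟨t, fun h => absurd ht h⟩
      by_cases hp : ∃ p ∈ P, t ∈ p
      · obtain ⟨p, hp, htp⟩ := hp
        obtain ⟨s, l1, l2, e⟩ := pre t ht p hp htp
        exact ⟨s, fun _ => Or.inr ⟨p, hp, l1, l2, e⟩⟩
      · push Not at hp
        exact ⟨t, fun _ => Or.inl ⟨rfl, hp⟩⟩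
    choose m hm using hm
    refine ⟨m, ?_, ?_, ?_⟩
    · intro t ht t' ht' htt
      rcases hm t ht with ⟨e1, e2⟩ | ⟨p, hp, l1, l2, e⟩
      · rcases hm t' ht' with ⟨e1', e2'⟩ | ⟨p', hp', l1', l2', e'⟩
        · rw [← e1, ← e1', htt]
        · exfalso
          apply e2 p' hp'
          rw [← e1, htt, e']
          simp
      · rcases hm t' ht' with ⟨e1', e2'⟩ | ⟨p', hp', l1', l2', e'⟩
        · exfalso
          apply e2' p hp
          rw [← e1', ← htt, e]
          simp
        · have hpp : p = p' := uniq p hp p' hp' (m t) (by rw [e]; simp) (by rw [e', htt]; simp)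
          subst hpp
          have hnd : (l1 ++ m t :: t :: l2).Nodup := e ▸ (h1 p hp).2.1
          rw [htt] at e hnd
          have e3 : l1 ++ m t' :: t :: l2 = l1' ++ m t' :: t' :: l2' := e.symm.trans e'
          have n1 : m t' ∉ l1 := by
            rw [List.nodup_append] at hnd
            intro hmem
            exact hnd.2.2 _ hmem _ (by simp) rfl
          have n2 : m t' ∉ t :: l2 := (List.nodup_cons.1 (List.nodup_append.1 hnd).2.1).1
          have q := (List.append_cons_inj_of_notMem n1 n2).1 e3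
          have := q.2.2
          simp only [List.cons.injEq] at this
          exact this.1
    · intro t ht
      rcases hm t ht with ⟨e1, e2⟩ | ⟨p, hp, l1, l2, e⟩
      · exact Or.inl e1
      · right
        have hc := (h1 p hp).2.2
        rw [e] at hc
        have := hc.right_of_append
        rw [List.isChain_cons] at this
        exact this.1 t (by simp)
    · intro t ht hY
      rw [← h4] at hY
      obtain ⟨q, hq, hlast⟩ := hY
      have hmq : m t ∈ q := List.mem_of_mem_getLast? hlast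
      rcases hm t ht with ⟨e1, e2⟩ | ⟨p, hp, l1, l2, e⟩
      · rw [e1] at hmq
        exact e2 q hq hmq
      · have hpq : p = q := uniq p hp q hq (m t) (by rw [e]; simp) hmq
        subst hpq
        have hnd : (l1 ++ m t :: t :: l2).Nodup := e ▸ (h1 p hp).2.1
        rw [e, List.getLast?_append] at hlast
        have hne : (m t :: t :: l2).getLast? = (t :: l2).getLast? := rfl
        rw [hne] at hlast
        have h5 : m t ∈ (t :: l2) := by
          cases hgl : (t :: l2).getLast? with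
          | none => simp at hgl
          | some z =>
            rw [hgl] at hlast
            simp only [Option.some_or, Option.some.injEq] at hlast
            rw [← hlast]
            exact List.mem_of_mem_getLast? hgl
        have h6 := (List.nodup_append.1 hnd).2.1
        exact (List.nodup_cons.1 h6).1 h5
  · have hj : ∀ x, ∃ y, x ∈ X → ∃ p ∈ P, p.head? = some x ∧ p.getLast? = some y := by
      intro x
      by_cases hx : x ∈ X
      · have hx' := hx
        rw [← h3] at hx'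
        obtain ⟨p, hp, hpx⟩ := hx'
        obtain ⟨hne, -, -⟩ := h1 p hp
        exact ⟨p.getLast hne, fun _ => ⟨p, hp, hpx, List.getLast?_eq_getLast_of_ne_nil hne⟩⟩
      · exact ⟨x, fun h => absurd h hx⟩
    choose j hj using hj
    refine ⟨j, ?_, ?_⟩
    · intro x hx x' hx' hxx
      obtain ⟨p, hp, e1, e2⟩ := hj x hx
      obtain ⟨p', hp', e1', e2'⟩ := hj x' hx'
      have : p = p' := uniq p hp p' hp' (j x) (List.mem_of_mem_getLast? e2)
        (by rw [hxx]; exact List.mem_of_mem_getLast? e2')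
      subst this
      rw [e1] at e1'
      exact Option.some.inj e1'
    · intro x hx
      obtain ⟨p, hp, e1, e2⟩ := hj x hx
      rw [← h4]
      exact ⟨p, hp, e2⟩


section rkfacts

variable {α : Type} [Finite α] (M : Matroid α)

theorem rk_cast' (X : Set α) : ((M.eRk X).toNat : ℕ∞) = M.eRk X :=
  ENat.natCast_toNat (ne_top_of_le_ne_top (Set.toFinite X).encard_lt_top.ne (M.eRk_le_encard X))

theorem rk_mono' {X Y : Set α} (h : X ⊆ Y) : rk M X ≤ rk M Y := by
  unfold rk
  have := M.eRk_mono h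
  rw [← rk_cast' M X, ← rk_cast' M Y] at this
  exact_mod_cast this

theorem rk_submod' (X Y : Set α) : rk M (X ∩ Y) + rk M (X ∪ Y) ≤ rk M X + rk M Y := by
  unfold rk
  have := M.eRk_inter_add_eRk_union_le X Y
  rw [← rk_cast' M X, ← rk_cast' M Y, ← rk_cast' M (X ∩ Y), ← rk_cast' M (X ∪ Y)] at this
  exact_mod_cast this

omit [Finite α] in
theorem rk_nonneg' (X : Set α) : 0 ≤ rk M X := by
  unfold rk
  positivity

theorem rk_union_le' (X Y : Set α) : rk M (X ∪ Y) ≤ rk M X + Y.ncard := by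
  unfold rk
  have := M.eRk_union_le_eRk_add_encard X Y
  rw [← rk_cast' M X, ← rk_cast' M (X ∪ Y), ← (Set.toFinite Y).cast_ncard_eq] at this
  exact_mod_cast this

theorem rk_indep' {I : Set α} (h : M.Indep I) : rk M I = I.ncard := by
  unfold rk
  have := h.eRk_eq_encard
  rw [← rk_cast' M I, ← (Set.toFinite I).cast_ncard_eq] at this
  exact_mod_cast this

theorem indep_of_rk' {I : Set α} (h : (I.ncard : ℤ) ≤ rk M I) : M.Indep I := by
  rw [M.indep_iff_eRk_eq_encard_of_finite (Set.toFinite I)]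
  refine le_antisymm (M.eRk_le_encard I) ?_
  unfold rk at h
  rw [← rk_cast' M I, ← (Set.toFinite I).cast_ncard_eq]
  exact_mod_cast h

end rkfacts

theorem sum_ite_ncard {τ : Type} [Fintype τ] (S : Set τ) [DecidablePred (· ∈ S)] :
    ∑ v, (if v ∈ S then (1 : ℤ) else 0) = S.ncard := by
  rw [Finset.sum_boole, Set.ncard_eq_toFinset_card']
  congr 2
  ext v
  simp

/-- Submodular function of the complement, truncated. -/
theorem trunc_submod {τ : Type} [Finite τ] (M : Matroid τ) (k : ℤ) (S S' : Set τ) :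
    min (rk M (S ∪ S')) k + min (rk M (S ∩ S')) k ≤ min (rk M S) k + min (rk M S') k := by
  have h1 := rk_submod' M S S'
  have h2 := rk_mono' M (inter_subset_left : S ∩ S' ⊆ S)
  have h3 := rk_mono' M (inter_subset_right : S ∩ S' ⊆ S')
  have h4 := rk_mono' M (subset_union_left : S ⊆ S ∪ S')
  have h5 := rk_mono' M (subset_union_right : S' ⊆ S ∪ S')
  omega

/-- Expressibility passes to induced matroids. -/
theorem Expr.induce {c : ℕ} (hc : 2 ≤ c) {τ : Type} [Finite τ] {G : τ → τ → Prop}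
    {M₀ N : Matroid τ} {A : Set τ} (h₀ : Expr c M₀.E (rk M₀)) (hN : IsInduced G M₀ A N) :
    Expr c N.E (rk N) := by
  classical
  have : Fintype τ := Fintype.ofFinite τ
  obtain ⟨ω, hω, f0, hf0, hr0⟩ := h₀
  obtain ⟨hNE, hNI⟩ := hN
  set K : ℤ := (Fintype.card τ : ℤ) with hK
  have hKle : ∀ S : Set τ, (S.ncard : ℤ) ≤ K := fun S => by
    rw [hK, ← Nat.card_eq_fintype_card]
    exact_mod_cast Set.ncard_le_card S
  -- the penalty
  set pen : Set τ → Set τ → ℤ := fun x y =>
    ∑ v : τ, ∑ u : τ, (if u ∈ y ∧ v ∉ x then (if G u v then K else 0) else 0) with hpen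
  set val : Set τ → Set τ → Set τ → Set ω → ℤ := fun B x y Z =>
    ((B \ x).ncard + (x \ y).ncard) + (pen x y + f0 (mk (y ∩ M₀.E) Z)) with hval
  have hK0 : 0 ≤ K := by rw [hK]; positivity
  have hterm : ∀ (x y : Set τ) (v u : τ),
      0 ≤ (if u ∈ y ∧ v ∉ x then (if G u v then K else 0) else 0) := by
    intro x y v u
    split_ifs <;> first | exact hK0 | exact le_rfl
  have pen_nonneg : ∀ x y, 0 ≤ pen x y := fun x y =>
    Finset.sum_nonneg fun v _ => Finset.sum_nonneg fun u _ => hterm x y v u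
  have pen_valid : ∀ x y : Set τ, (∀ u v, G u v → u ∈ y → v ∈ x) → pen x y = 0 := by
    intro x y h
    refine Finset.sum_eq_zero fun v _ => Finset.sum_eq_zero fun u _ => ?_
    split_ifs with h1 h2
    · exact absurd (h u v h2 h1.1) h1.2
    · rfl
    · rfl
  have pen_invalid : ∀ x y : Set τ, ¬ (∀ u v, G u v → u ∈ y → v ∈ x) → K ≤ pen x y := by
    intro x y h
    push Not at h
    obtain ⟨u, v, hG, hu, hv⟩ := h
    calc K = (if u ∈ y ∧ v ∉ x then (if G u v then K else 0) else 0) := by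
          rw [if_pos ⟨hu, hv⟩, if_pos hG]
      _ ≤ ∑ u : τ, (if u ∈ y ∧ v ∉ x then (if G u v then K else 0) else 0) :=
          Finset.single_le_sum (f := fun u => (if u ∈ y ∧ v ∉ x then (if G u v then K else 0) else 0))
            (fun u _ => hterm x y v u) (Finset.mem_univ u)
      _ ≤ pen x y :=
          Finset.single_le_sum (f := fun v => ∑ u : τ, (if u ∈ y ∧ v ∉ x then (if G u v then K else 0) else 0))
            (fun v _ => Finset.sum_nonneg fun u _ => hterm x y v u) (Finset.mem_univ v)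
  have f0_ge : ∀ (y : Set τ) (Z : Set ω), rk M₀ (y ∩ M₀.E) ≤ f0 (mk (y ∩ M₀.E) Z) := fun y Z =>
    (hr0 _ inter_subset_right).1 Z
  -- (i)
  have claim1 : ∀ X, N.Indep X → ∀ x y Z, (X.ncard : ℤ) ≤ val X x y Z := by
    intro X hX x y Z
    have hf := f0_ge y Z
    by_cases hv : ∀ u v, G u v → u ∈ y → v ∈ x
    · obtain ⟨-, Y, hY, hL⟩ := (hNI X).1 hX
      obtain ⟨⟨m, hm1, hm2, hm3⟩, j, hj1, hj2⟩ := map_of_linked hL
      have e1 : X.ncard ≤ Y.ncard := Set.ncard_le_ncard_of_injOn j hj2 hj1 (Set.toFinite _)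
      have e2 : (xᶜ \ X).ncard ≤ ((yᶜ ∪ xᶜ) \ Y).ncard := by
        refine Set.ncard_le_ncard_of_injOn m (fun t ht => ⟨?_, hm3 t ht.2⟩)
          (hm1.mono fun t ht => ht.2) (Set.toFinite _)
        rcases hm2 t ht.2 with h | h
        · rw [h]
          exact Or.inr ht.1
        · exact Or.inl fun hy => ht.1 (hv _ _ h hy)
      have e3 : rk M₀ (Y ∩ y) = (Y ∩ y).ncard := rk_indep' M₀ (hY.subset inter_subset_left)
      have e4 : rk M₀ (Y ∩ y) ≤ rk M₀ (y ∩ M₀.E) :=
        rk_mono' M₀ fun t ht => ⟨ht.2, hY.subset_ground ht.1⟩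
      have e5 : ((yᶜ ∪ xᶜ)).ncard = (xᶜ).ncard + (x \ y).ncard := by
        rw [← Set.ncard_union_eq (s := xᶜ) (t := x \ y)]
        · congr 1
          ext t
          simp only [mem_union, mem_compl_iff, mem_sdiff]
          tauto
        · rw [Set.disjoint_left]
          intro t h1 h2
          exact h1 h2.1
      have e6 : ((yᶜ ∪ xᶜ) ∩ Y).ncard + ((yᶜ ∪ xᶜ) \ Y).ncard = (yᶜ ∪ xᶜ).ncard :=
        Set.ncard_inter_add_ncard_sdiff_eq_ncard _ _ (Set.toFinite _)
      have e7 : (xᶜ ∩ X).ncard + (xᶜ \ X).ncard = (xᶜ).ncard :=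
        Set.ncard_inter_add_ncard_sdiff_eq_ncard _ _ (Set.toFinite _)
      have e8 : (Y ∩ (yᶜ ∪ xᶜ)).ncard + (Y \ (yᶜ ∪ xᶜ)).ncard = Y.ncard :=
        Set.ncard_inter_add_ncard_sdiff_eq_ncard _ _ (Set.toFinite _)
      have e9 : (Y \ (yᶜ ∪ xᶜ)).ncard ≤ (Y ∩ y).ncard := by
        refine Set.ncard_le_ncard (fun t ht => ⟨ht.1, ?_⟩) (Set.toFinite _)
        by_contra h
        exact ht.2 (Or.inl h)
      have e10 : X \ x = xᶜ ∩ X := by
        ext t
        simp only [mem_sdiff, mem_inter_iff, mem_compl_iff]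
        tauto
      have e11 : Y ∩ (yᶜ ∪ xᶜ) = (yᶜ ∪ xᶜ) ∩ Y := inter_comm _ _
      have e12 := pen_valid x y hv
      show (X.ncard : ℤ) ≤ ((X \ x).ncard + (x \ y).ncard) + (pen x y + f0 (mk (y ∩ M₀.E) Z))
      rw [e10, e12]
      rw [e11] at e8
      omega
    · have e1 := pen_invalid x y hv
      have e2 := hKle X
      have e3 := rk_nonneg' M₀ (y ∩ M₀.E)
      show (X.ncard : ℤ) ≤ ((X \ x).ncard + (x \ y).ncard) + (pen x y + f0 (mk (y ∩ M₀.E) Z))
      omega
  -- (ii)
  have claim2 : ∀ X ⊆ A, (∀ x y Z, (X.ncard : ℤ) ≤ val X x y Z) → N.Indep X := by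
    intro X hXA hX
    set k : ℤ := (X.ncard : ℤ) with hk
    set ρ : Finset τ → ℤ := fun S => S.card + min (rk M₀ (M₀.E \ ↑S)) k - k with hρ
    set Γ : {t // t ∉ X} → Finset τ := fun t => Finset.univ.filter fun s => s = t.1 ∨ G s t.1 with hΓ
    have hmono : ∀ S S', S ⊆ S' → ρ S ≤ ρ S' := by
      intro S S' h
      have h1 : rk M₀ (M₀.E \ ↑S) ≤ rk M₀ (M₀.E \ ↑S') + ((S' \ S : Finset τ) : Set τ).ncard := by
        refine le_trans (rk_mono' M₀ ?_) (rk_union_le' M₀ _ _)
        intro t ht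
        by_cases ht' : t ∈ S'
        · exact Or.inr (by simp [ht', ht.2])
        · exact Or.inl ⟨ht.1, ht'⟩
      rw [Set.ncard_coe_finset] at h1
      have h2 : (S' \ S).card + S.card = S'.card := Finset.card_sdiff_add_card_eq_card h
      show (S.card : ℤ) + min (rk M₀ (M₀.E \ ↑S)) k - k ≤ S'.card + min (rk M₀ (M₀.E \ ↑S')) k - k
      omega
    have hsub : ∀ S S', ρ (S ∪ S') + ρ (S ∩ S') ≤ ρ S + ρ S' := by
      intro S S'
      have h1 := trunc_submod M₀ k (M₀.E \ ↑S) (M₀.E \ ↑S')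
      have h2 := Finset.card_union_add_card_inter S S'
      have e1 : M₀.E \ ((S ∪ S' : Finset τ) : Set τ) = (M₀.E \ ↑S) ∩ (M₀.E \ ↑S') := by
        ext t
        simp only [Finset.coe_union, mem_sdiff, mem_union, Finset.mem_coe, mem_inter_iff]
        tauto
      have e2 : M₀.E \ ((S ∩ S' : Finset τ) : Set τ) = (M₀.E \ ↑S) ∪ (M₀.E \ ↑S') := by
        ext t
        simp only [Finset.coe_inter, mem_sdiff, mem_union, Finset.mem_coe, mem_inter_iff]
        tauto
      show ((S ∪ S').card : ℤ) + min (rk M₀ (M₀.E \ ((S ∪ S' : Finset τ) : Set τ))) k - k +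
        (((S ∩ S').card : ℤ) + min (rk M₀ (M₀.E \ ((S ∩ S' : Finset τ) : Set τ))) k - k) ≤
        S.card + min (rk M₀ (M₀.E \ ↑S)) k - k + (S'.card + min (rk M₀ (M₀.E \ ↑S')) k - k)
      rw [e1, e2]
      omega
    have hle : ∀ S, ρ S ≤ S.card := by
      intro S
      show (S.card : ℤ) + min (rk M₀ (M₀.E \ ↑S)) k - k ≤ S.card
      omega
    have hall : ∀ Q : Finset {t // t ∉ X}, (Q.card : ℤ) ≤ ρ (Q.biUnion Γ) := by
      intro Q
      set Q' : Finset τ := Q.map ⟨Subtype.val, Subtype.val_injective⟩ with hQ'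
      set W : Finset τ := Q.biUnion Γ with hW
      have hQW : Q' ⊆ W := by
        intro t ht
        rw [hQ', Finset.mem_map] at ht
        obtain ⟨q, hq, rfl⟩ := ht
        rw [hW, Finset.mem_biUnion]
        exact ⟨q, hq, by rw [hΓ]; simp⟩
      have hQX : ∀ t ∈ Q', t ∉ X := by
        intro t ht
        rw [hQ', Finset.mem_map] at ht
        obtain ⟨q, hq, rfl⟩ := ht
        exact q.2
      have hcard : Q'.card = Q.card := by rw [hQ', Finset.card_map]
      obtain ⟨Z, hZ⟩ := (hr0 ((↑W : Set τ)ᶜ ∩ M₀.E) inter_subset_right).2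
      have h1 := hX ((↑Q' : Set τ)ᶜ) ((↑W : Set τ)ᶜ) Z
      have h2 : pen ((↑Q' : Set τ)ᶜ) ((↑W : Set τ)ᶜ) = 0 := by
        apply pen_valid
        intro u v hG hu hv
        apply hu
        have hv' : v ∈ Q' := hv
        rw [hQ', Finset.mem_map] at hv'
        obtain ⟨q, hq, rfl⟩ := hv'
        rw [hW, Finset.mem_coe, Finset.mem_biUnion]
        exact ⟨q, hq, by rw [hΓ]; simp only [Finset.mem_filter, Finset.mem_univ, true_and]; exact Or.inr hG⟩
      have h3 : k ≤ ((X \ (↑Q' : Set τ)ᶜ).ncard + ((↑Q' : Set τ)ᶜ \ (↑W : Set τ)ᶜ).ncard) +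
        (pen ((↑Q' : Set τ)ᶜ) ((↑W : Set τ)ᶜ) + f0 (mk ((↑W : Set τ)ᶜ ∩ M₀.E) Z)) := h1
      have h4 : X \ (↑Q' : Set τ)ᶜ = ∅ := by
        ext t
        simp only [mem_sdiff, mem_compl_iff, Finset.mem_coe, not_not, mem_empty_iff_false, iff_false,
          not_and]
        exact fun h h' => hQX t h' h
      have h5 : (↑Q' : Set τ)ᶜ \ (↑W : Set τ)ᶜ = ((W \ Q' : Finset τ) : Set τ) := by
        ext t
        simp only [mem_sdiff, mem_compl_iff, Finset.mem_coe, not_not, Finset.mem_sdiff]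
        tauto
      rw [h2, hZ, h4, h5, Set.ncard_coe_finset, Set.ncard_empty] at h3
      have h6 : (W \ Q').card + Q'.card = W.card := Finset.card_sdiff_add_card_eq_card hQW
      have h7 : (↑W : Set τ)ᶜ ∩ M₀.E = M₀.E \ ↑W := by
        ext t
        simp only [mem_sdiff, mem_compl_iff, mem_inter_iff, Finset.mem_coe]
        tauto
      rw [h7] at h3
      show (Q.card : ℤ) ≤ W.card + min (rk M₀ (M₀.E \ ↑W)) k - k
      omega
    obtain ⟨m, hm1, hm2⟩ := rado_abs ρ hmono hsub hle _ Γ rfl hall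
    set m' : τ → τ := fun t => if h : t ∉ X then m ⟨t, h⟩ else t with hm'
    have hm's : ∀ t (h : t ∉ X), m' t = m ⟨t, h⟩ := fun t h => by rw [hm']; simp [h]
    have hcardι : (Fintype.card {t // t ∉ X} : ℤ) = ((Xᶜ).ncard : ℤ) := by
      congr 1
      rw [← Nat.card_eq_fintype_card]
      rfl
    have hinj0 : Function.Injective m := by
      have h1 := hle (Finset.univ.image m)
      have h2 : (Finset.univ : Finset {t // t ∉ X}).card ≤ (Finset.univ.image m).card := by
        rw [Finset.card_univ]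
        omega
      have h3 := Finset.card_image_iff.1 (le_antisymm Finset.card_image_le h2)
      exact fun a b hab => h3 (Finset.mem_coe.2 (Finset.mem_univ a)) (Finset.mem_coe.2 (Finset.mem_univ b)) hab
    have hinj : InjOn m' Xᶜ := by
      intro a ha b hb hab
      rw [hm's a ha, hm's b hb] at hab
      exact congrArg Subtype.val (hinj0 hab)
    have hG' : ∀ t ∉ X, m' t = t ∨ G (m' t) t := by
      intro t ht
      have := hm1 ⟨t, ht⟩
      rw [hΓ] at this
      simp only [Finset.mem_filter, Finset.mem_univ, true_and] at this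
      rw [hm's t ht]
      exact this
    obtain ⟨P, hP1, hP2, hP3, hP4, -⟩ := linked_of_map _ m' X rfl hinj hG'
    rw [hNI]
    refine ⟨hXA, _, ?_, P, hP1, hP2, hP3, hP4⟩
    -- independence of the complement of the image
    set Y : Set τ := (m' '' Xᶜ)ᶜ with hY
    have himg : ((Finset.univ.image m : Finset τ) : Set τ) = m' '' Xᶜ := by
      ext t
      simp only [Finset.coe_image, Finset.coe_univ, image_univ, mem_range, Subtype.exists, mem_image,
        mem_compl_iff]
      constructor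
      · rintro ⟨a, ha, rfl⟩
        exact ⟨a, ha, hm's a ha⟩
      · rintro ⟨a, ha, rfl⟩
        exact ⟨a, ha, (hm's a ha).symm⟩
    have c1 : (m' '' Xᶜ).ncard = (Xᶜ).ncard := hinj.ncard_image
    have c2 : (m' '' Xᶜ).ncard + Y.ncard = Nat.card τ := Set.ncard_add_ncard_compl _
    have c3 : X.ncard + (Xᶜ).ncard = Nat.card τ := Set.ncard_add_ncard_compl _
    have c4 : M₀.E \ ((Finset.univ.image m : Finset τ) : Set τ) = M₀.E ∩ Y := by
      rw [himg, hY]
      rfl
    have c5 : (Fintype.card {t // t ∉ X} : ℤ) ≤ (Finset.univ.image m).card +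
      min (rk M₀ (M₀.E \ ((Finset.univ.image m : Finset τ) : Set τ))) k - k := hm2
    have c6 : ((Finset.univ.image m).card : ℤ) = (m' '' Xᶜ).ncard := by
      rw [← himg, Set.ncard_coe_finset]
    rw [c4] at c5
    have c7 : k ≤ rk M₀ (M₀.E ∩ Y) := by omega
    have c8 : (M₀.E ∩ Y).ncard ≤ Y.ncard := Set.ncard_le_ncard inter_subset_right (Set.toFinite _)
    have c9 : M₀.Indep (M₀.E ∩ Y) := indep_of_rk' M₀ (by omega)
    have c10 := rk_indep' M₀ c9
    have c11 : M₀.E ∩ Y = Y :=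
      Set.eq_of_subset_of_ncard_le inter_subset_right (by omega) (Set.toFinite _)
    rw [← c11]
    exact c9
  -- the function
  set σ : τ ⊕ ω → Option (τ ⊕ (τ ⊕ (τ ⊕ ω))) := fun e => match e with
    | Sum.inl v => if v ∈ M₀.E then some (Sum.inr (Sum.inr (Sum.inl v))) else none
    | Sum.inr w => some (Sum.inr (Sum.inr (Sum.inr w))) with hσ
  set f : Set (τ ⊕ (τ ⊕ (τ ⊕ ω))) → ℤ := fun S =>
    ((∑ v : τ, (if (Sum.inl v : τ ⊕ (τ ⊕ (τ ⊕ ω))) ∈ S ∧
        (Sum.inr (Sum.inl v) : τ ⊕ (τ ⊕ (τ ⊕ ω))) ∉ S then (1 : ℤ) else 0)) +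
      (∑ v : τ, (if (Sum.inr (Sum.inl v) : τ ⊕ (τ ⊕ (τ ⊕ ω))) ∈ S ∧
        (Sum.inr (Sum.inr (Sum.inl v)) : τ ⊕ (τ ⊕ (τ ⊕ ω))) ∉ S then (1 : ℤ) else 0))) +
    ((∑ v : τ, ∑ u : τ, (if (Sum.inr (Sum.inr (Sum.inl u)) : τ ⊕ (τ ⊕ (τ ⊕ ω))) ∈ S ∧
        (Sum.inr (Sum.inl v) : τ ⊕ (τ ⊕ (τ ⊕ ω))) ∉ S then (if G u v then K else 0) else 0)) +
      f0 {e | False ∨ ∃ x ∈ S, σ e = some x}) with hf
  have hDec : Dec c f := by
    rw [hf]
    refine Dec.add _ _ (Dec.add _ _ ?_ ?_) (Dec.add _ _ ?_ ?_)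
    · exact Dec.sum _ _ fun v _ => Dec.pen hc _ _ 1 zero_le_one
    · exact Dec.sum _ _ fun v _ => Dec.pen hc _ _ 1 zero_le_one
    · refine Dec.sum _ _ fun v _ => Dec.sum _ _ fun u _ => Dec.pen hc _ _ _ ?_
      split_ifs
      · exact hK0
      · exact le_rfl
    · exact hf0.subst σ (fun _ => False)
  have hfval : ∀ (B : Set τ) (Z' : Set (τ ⊕ (τ ⊕ ω))), f (mk B Z') =
      val B {v | Sum.inl v ∈ Z'} {v | Sum.inr (Sum.inl v) ∈ Z'} {w | Sum.inr (Sum.inr w) ∈ Z'} := by
    intro B Z'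
    rw [hf, hval]
    simp only [mem_mk_inl, mem_mk_inr]
    congr 1
    · congr 1
      · rw [← sum_ite_ncard]
        rfl
      · rw [← sum_ite_ncard]
        rfl
    · congr 1
      congr 1
      ext e
      rcases e with v | w
      · rw [mem_mk_inl, hσ]
        simp only [mem_ofPred_eq, false_or, mem_inter_iff]
        constructor
        · rintro ⟨x, hx, hs⟩
          split_ifs at hs with h
          simp only [Option.some.injEq] at hs
          subst hs
          exact ⟨mem_mk_inr.1 hx, h⟩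
        · rintro ⟨h1, h2⟩
          exact ⟨_, mem_mk_inr.2 h1, by rw [if_pos h2]⟩
      · rw [mem_mk_inr, hσ]
        simp only [mem_ofPred_eq, false_or, Option.some.injEq]
        constructor
        · rintro ⟨x, hx, hs⟩
          subst hs
          exact mem_mk_inr.1 hx
        · intro h
          exact ⟨_, mem_mk_inr.2 h, rfl⟩
  have hmkval : ∀ B x y Z, ∃ Z', f (mk B Z') = val B x y Z := by
    intro B x y Z
    refine ⟨mk x (mk y Z), ?_⟩
    rw [hfval]
    congr 1
    · ext v; simp [mem_mk_inl]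
    · ext v; simp [mem_mk_inl, mem_mk_inr]
    · ext v; simp [mem_mk_inr]
  have hsubf := hDec.submod
  refine ⟨τ ⊕ (τ ⊕ ω), inferInstance, f, hDec, ?_⟩
  intro B hB
  rw [hNE] at hB
  -- minimisers
  have hmin : ∀ B : Set τ, ∃ Z', ∀ Z'', f (mk B Z') ≤ f (mk B Z'') := fun B =>
    Finite.exists_min fun Z' => f (mk B Z')
  choose Zm hZm using hmin
  set ρ : Set τ → ℤ := fun B => f (mk B (Zm B)) with hρ
  have ρ_sub : ∀ S S', ρ (S ∪ S') + ρ (S ∩ S') ≤ ρ S + ρ S' := by
    intro S S'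
    have h1 := hsubf (mk S (Zm S)) (mk S' (Zm S'))
    have e1 : mk S (Zm S) ∪ mk S' (Zm S') = mk (S ∪ S') (Zm S ∪ Zm S') := by
      ext e
      rcases e with v | w <;> simp [mem_mk_inl, mem_mk_inr]
    have e2 : mk S (Zm S) ∩ mk S' (Zm S') = mk (S ∩ S') (Zm S ∩ Zm S') := by
      ext e
      rcases e with v | w <;> simp [mem_mk_inl, mem_mk_inr]
    rw [e1, e2] at h1
    have h2 := hZm (S ∪ S') (Zm S ∪ Zm S')
    have h3 := hZm (S ∩ S') (Zm S ∩ Zm S')
    show f (mk (S ∪ S') (Zm (S ∪ S'))) + f (mk (S ∩ S') (Zm (S ∩ S'))) ≤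
      f (mk S (Zm S)) + f (mk S' (Zm S'))
    omega
  have ρ_mono : ∀ S S', S ⊆ S' → ρ S ≤ ρ S' := by
    intro S S' h
    refine le_trans (hZm S (Zm S')) ?_
    show f (mk S (Zm S')) ≤ f (mk S' (Zm S'))
    rw [hfval, hfval, hval]
    have : (S \ {v | Sum.inl v ∈ Zm S'}).ncard ≤ (S' \ {v | Sum.inl v ∈ Zm S'}).ncard :=
      Set.ncard_le_ncard (fun t ht => ⟨h ht.1, ht.2⟩) (Set.toFinite _)
    show (((S \ {v | Sum.inl v ∈ Zm S'}).ncard : ℤ) + _) + _ ≤ (((S' \ {v | Sum.inl v ∈ Zm S'}).ncard : ℤ) + _) + _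
    omega
  obtain ⟨X, hX⟩ := N.exists_isBasis' B
  have hXB : X ⊆ B := hX.subset
  have hXi : N.Indep X := hX.indep
  have hrk : rk N B = X.ncard := by
    have h1 : N.eRk B = X.encard := hX.eRk_eq_encard
    unfold rk
    rw [h1]
    rfl
  have ρX : (X.ncard : ℤ) ≤ ρ X := by
    show (X.ncard : ℤ) ≤ f (mk X (Zm X))
    rw [hfval]
    exact claim1 X hXi _ _ _
  have ρins : ∀ b ∈ B, b ∉ X → ρ (insert b X) ≤ X.ncard := by
    intro b hb hbX
    by_contra hcon
    push Not at hcon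
    have h1 : N.Indep (insert b X) := by
      apply claim2 _ (insert_subset (hB hb) (hXB.trans hB))
      intro x y Z
      obtain ⟨Z', hZ'⟩ := hmkval (insert b X) x y Z
      rw [← hZ', Set.ncard_insert_of_notMem hbX (Set.toFinite _)]
      have := hZm (insert b X) Z'
      have h2 : (X.ncard : ℤ) < f (mk (insert b X) (Zm (insert b X))) := hcon
      push_cast
      omega
    exact hbX (hX.mem_of_insert_indep hb h1)
  have ρle : ρ B ≤ X.ncard := by
    have key : ∀ S : Set τ, S ⊆ B \ X → ρ (X ∪ S) ≤ X.ncard := by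
      intro S
      refine Set.Finite.induction_on_subset (motive := fun T _ => T ⊆ B \ X → ρ (X ∪ T) ≤ X.ncard) S
        (Set.toFinite S) ?_ ?_
      · intro _
        rw [union_empty]
        obtain ⟨Z, hZ⟩ := (hr0 (∅ ∩ M₀.E) inter_subset_right).2
        obtain ⟨Z', hZ'⟩ := hmkval X ∅ ∅ Z
        refine le_trans (hZm X Z') (le_of_eq ?_)
        show f (mk X Z') = _
        rw [hZ', hval]
        show ((X \ ∅).ncard + ((∅ : Set τ) \ ∅).ncard : ℤ) + (pen ∅ ∅ + f0 (mk (∅ ∩ M₀.E) Z)) = _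
        rw [hZ, pen_valid ∅ ∅ (fun u v _ h => absurd h (Set.notMem_empty u))]
        have : rk M₀ (∅ ∩ M₀.E) = 0 := by
          rw [empty_inter, rk_indep' M₀ M₀.empty_indep]
          simp
        rw [this]
        simp
      · intro b T hb hT hbT ih hsub'
        have hT' : T ⊆ B \ X := fun t ht => hsub' (Or.inr ht)
        have hbB : b ∈ B \ X := hsub' (Or.inl rfl)
        have h1 := ih hT'
        have h2 := ρins b hbB.1 hbB.2
        have h3 := ρ_sub (X ∪ T) (insert b X)
        have e1 : (X ∪ T) ∪ insert b X = X ∪ insert b T := by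
          ext t
          simp only [mem_union, mem_insert_iff]
          tauto
        have e2 : (X ∪ T) ∩ insert b X = X := by
          ext t
          simp only [mem_union, mem_insert_iff, mem_inter_iff]
          constructor
          · rintro ⟨h1 | h1, h2 | h2⟩
            · exact h1
            · exact h1
            · subst h2
              exact absurd h1 hbT
            · exact h2
          · exact fun h => ⟨Or.inl h, Or.inr h⟩
        rw [e1, e2] at h3
        omega
    have := key (B \ X) (subset_refl _)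
    rwa [union_sdiff_cancel hXB] at this
  have ρeq : ρ B = X.ncard := le_antisymm ρle (le_trans ρX (ρ_mono X B hXB))
  refine ⟨fun Z' => ?_, Zm B, ?_⟩
  · rw [hrk, ← ρeq]
    exact hZm B Z'
  · rw [hrk, ← ρeq]


/-! ### The class of expressible matroids is complete -/

/-- Finite matroids whose rank function is expressible with arity `c`. -/
def ExprClass (c : ℕ) : MClass := fun _ M => M.E.Finite ∧ Expr c M.E (rk M)

theorem exprClass_complete {c : ℕ} (hc : 2 ≤ c) : IsComplete (ExprClass c) where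
  finite h := h.1
  iso := by
    rintro α β M N hiso ⟨hM, h⟩
    have hN : N.E.Finite := by
      obtain ⟨e, _⟩ := hiso
      have : Finite M.E := hM
      have : Finite N.E := Finite.of_equiv _ e
      exact Set.toFinite _
    exact ⟨hN, Expr.iso hM hN hiso h⟩
  restrict h A hA := ⟨h.1.subset hA, Expr.restrict h.2 hA⟩
  contract h A _ := ⟨h.1.subset sdiff_subset, Expr.contract (by omega) h.1 h.2 A⟩
  dual h := ⟨h.1, Expr.dual (by omega) h.1 h.2⟩
  directSum := by
    rintro α β M N ⟨hM, h⟩ ⟨hN, h'⟩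
    refine ⟨?_, Expr.sum hM hN h h'⟩
    rw [Matroid.sum_ground]
    exact (hM.image _).union (hN.image _)
  truncate := by
    rintro α M T k ⟨hM, h⟩ hk hT
    exact ⟨hT.1 ▸ hM, Expr.truncate hc hM hk hT h⟩
  induce := by
    rintro τ hτ G M₀ N A ⟨_, h⟩ hN
    exact ⟨Set.toFinite _, Expr.induce hc h hN⟩

/-! ### The zero-sum matroids -/

section zeroSum

variable {d : ℕ}

theorem three_add (a : Fin d → ZMod 3) : a + a + a = 0 := by
  funext i
  have : ∀ x : ZMod 3, x + x + x = 0 := by decide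
  exact this (a i)

/-- The three-point lines. -/
def IsLine (s : Finset (Fin d → ZMod 3)) : Prop :=
  ∃ a b c : Fin d → ZMod 3, a ≠ b ∧ a ≠ c ∧ b ≠ c ∧ a + b + c = 0 ∧ s = {a, b, c}

theorem isLine_card {s : Finset (Fin d → ZMod 3)} (h : IsLine s) : s.card = 3 := by
  obtain ⟨a, b, c, hab, hac, hbc, _, rfl⟩ := h
  exact Finset.card_eq_three.2 ⟨a, b, c, hab, hac, hbc, rfl⟩

/-- Two points of a line determine the third one. -/
theorem isLine_eq {s : Finset (Fin d → ZMod 3)} (h : IsLine s) {u v : Fin d → ZMod 3}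
    (hu : u ∈ s) (hv : v ∈ s) (huv : u ≠ v) : s = {u, v, -u - v} := by
  obtain ⟨a, b, c, hab, hac, hbc, hsum, rfl⟩ := h
  have hc : c = -a - b := by
    have : c = (a + b + c) - a - b := by abel
    rw [this, hsum]; abel
  have hb : b = -a - c := by
    have : b = (a + b + c) - a - c := by abel
    rw [this, hsum]; abel
  have ha : a = -b - c := by
    have : a = (a + b + c) - b - c := by abel
    rw [this, hsum]; abel
  simp only [Finset.mem_insert, Finset.mem_singleton] at hu hv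
  rcases hu with rfl | rfl | rfl <;> rcases hv with rfl | rfl | rfl
  · exact absurd rfl huv
  · rw [← hc]
  · rw [← hb]; ext x; simp only [Finset.mem_insert, Finset.mem_singleton]; tauto
  · have : -u - v = c := by rw [hc]; abel
    rw [this]; ext x; simp only [Finset.mem_insert, Finset.mem_singleton]; tauto
  · exact absurd rfl huv
  · rw [← ha]; ext x; simp only [Finset.mem_insert, Finset.mem_singleton]; tauto
  · have : -u - v = b := by rw [hb]; abel
    rw [this]; ext x; simp only [Finset.mem_insert, Finset.mem_singleton]; tauto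
  · have : -u - v = a := by rw [ha]; abel
    rw [this]; ext x; simp only [Finset.mem_insert, Finset.mem_singleton]; tauto
  · exact absurd rfl huv

theorem isLine_of_ne {a b : Fin d → ZMod 3} (hab : a ≠ b) : IsLine {a, b, -a - b} := by
  refine ⟨a, b, -a - b, hab, ?_, ?_, by abel, rfl⟩
  · intro h
    apply hab
    have h1 : b = -a - a := by
      have : b = -a - (-a - b) := by abel
      rw [this, ← h]
    have h2 := three_add a
    have h3 : -a - a = a := by
      have : -a - a = a - (a + a + a) := by abel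
      rw [this, h2, sub_zero]
    rw [h1, h3]
  · intro h
    apply hab
    have h1 : a = -b - b := by
      have : a = -b - (-a - b) := by abel
      rw [this, ← h]
    have h2 := three_add b
    have h3 : -b - b = b := by
      have : -b - b = b - (b + b + b) := by abel
      rw [this, h2, sub_zero]
    rw [h1, h3]

open Classical in
/-- There are many lines. -/
theorem many_lines (d : ℕ) :
    (3 ^ d) * (3 ^ d) - 3 ^ d ≤ 9 * Fintype.card {s : Finset (Fin d → ZMod 3) // IsLine s} := by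
  set O : Finset ((Fin d → ZMod 3) × (Fin d → ZMod 3)) := Finset.univ.offDiag with hO
  have hcard : O.card = (3 ^ d) * (3 ^ d) - 3 ^ d := by
    rw [hO, Finset.offDiag_card, Finset.card_univ, Fintype.card_fun, ZMod.card, Fintype.card_fin]
  rw [← hcard]
  set g : (Fin d → ZMod 3) × (Fin d → ZMod 3) → Finset (Fin d → ZMod 3) :=
    fun p => {p.1, p.2, -p.1 - p.2} with hg
  have h1 := Finset.card_le_mul_card_image (f := g) O 9 (by
    intro s hs
    refine le_trans (Finset.card_le_card (t := s ×ˢ s) ?_) ?_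
    · rintro ⟨a, b⟩ hp
      rw [Finset.mem_filter] at hp
      rw [Finset.mem_product, ← hp.2]
      simp [hg]
    · rw [Finset.card_product]
      obtain ⟨p, hp, rfl⟩ := Finset.mem_image.1 hs
      rw [hO, Finset.mem_offDiag] at hp
      rw [isLine_card (isLine_of_ne hp.2.2)])
  refine h1.trans (Nat.mul_le_mul_left 9 ?_)
  have h2 : (O.image g).card ≤ (Finset.univ.map (Function.Embedding.subtype
      (fun s : Finset (Fin d → ZMod 3) => IsLine s))).card := by
    refine Finset.card_le_card ?_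
    intro s hs
    obtain ⟨p, hp, rfl⟩ := Finset.mem_image.1 hs
    rw [hO, Finset.mem_offDiag] at hp
    rw [Finset.mem_map]
    exact ⟨⟨g p, isLine_of_ne hp.2.2⟩, Finset.mem_univ _, rfl⟩
  rw [Finset.card_map, Finset.card_univ] at h2
  exact h2

/-- The zero-sum matroid of dimension `d` is not expressible with small arity. -/
theorem not_expr {M : Matroid (Fin d → ZMod 3)} (hE : M.E = univ)
    (hI : ∀ I, M.Indep I ↔ I.encard ≤ 3 ∧
      ¬ ∃ a b c : Fin d → ZMod 3, a ≠ b ∧ a ≠ c ∧ b ≠ c ∧ a + b + c = 0 ∧ I = {a, b, c})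
    {c : ℕ} (hd : 9 * c + 1 < 3 ^ d) : ¬ Expr c M.E (rk M) := by
  classical
  intro hexpr
  rw [hE] at hexpr
  have hfin : M.E.Finite := by rw [hE]; exact Set.toFinite _
  have hline : ∀ s : Finset (Fin d → ZMod 3), IsLine s ↔
      ∃ a b c : Fin d → ZMod 3, a ≠ b ∧ a ≠ c ∧ b ≠ c ∧ a + b + c = 0 ∧
        (s : Set (Fin d → ZMod 3)) = {a, b, c} := by
    intro s
    constructor
    · rintro ⟨a, b, c, h1, h2, h3, h4, rfl⟩
      exact ⟨a, b, c, h1, h2, h3, h4, by simp⟩
    · rintro ⟨a, b, c, h1, h2, h3, h4, h5⟩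
      refine ⟨a, b, c, h1, h2, h3, h4, ?_⟩
      rw [← Finset.coe_inj, h5]; simp
  have hI' : ∀ s : Finset (Fin d → ZMod 3), M.Indep s ↔ s.card ≤ 3 ∧ ¬ IsLine s := by
    intro s
    rw [hI, ← hline, Set.encard_coe_eq_coe_finsetCard]
    norm_cast
  have hrk : ∀ s : Finset (Fin d → ZMod 3), M.Indep s → rk M s = s.card := by
    intro s hs; rw [rk_indep hfin hs, Set.ncard_coe_finset]
  have hle3 : ∀ A, rk M A ≤ 3 := by
    intro A
    rw [show (3 : ℤ) = ((3 : ℕ) : ℤ) by norm_num, rk_le_iff hfin, Matroid.eRk_le_iff]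
    intro I _ hIi
    exact ((hI I).1 hIi).1
  have hsmall : ∀ s : Finset (Fin d → ZMod 3), s.card ≤ 2 → rk M s = s.card := by
    intro s hs
    refine hrk s ((hI' s).2 ⟨by omega, fun hl => ?_⟩)
    have := isLine_card hl
    omega
  have hlv : ∀ s : Finset (Fin d → ZMod 3), IsLine s → ∀ v ∉ s,
      rk M ((s : Set (Fin d → ZMod 3)) ∪ {v}) = 3 := by
    intro s hs v hv
    refine le_antisymm (hle3 _) ?_
    obtain ⟨a, b, c, hab, hac, hbc, hsum, rfl⟩ := hs
    simp only [Finset.mem_insert, Finset.mem_singleton, not_or] at hv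
    have h3 : ({a, b, v} : Finset (Fin d → ZMod 3)).card = 3 :=
      Finset.card_eq_three.2 ⟨a, b, v, hab, fun h => hv.1 h.symm, fun h => hv.2.1 h.symm, rfl⟩
    have h4 : M.Indep ({a, b, v} : Finset (Fin d → ZMod 3)) := by
      refine (hI' _).2 ⟨h3.le, fun hl => ?_⟩
      have h5 := isLine_eq hl (u := a) (v := b) (by simp) (by simp) hab
      have h6 : v ∈ ({a, b, -a - b} : Finset (Fin d → ZMod 3)) := by rw [← h5]; simp
      simp only [Finset.mem_insert, Finset.mem_singleton] at h6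
      rcases h6 with h6 | h6 | h6
      · exact hv.1 h6
      · exact hv.2.1 h6
      · apply hv.2.2
        rw [h6]
        have : c = (a + b + c) - a - b := by abel
        rw [this, hsum]; abel
    have h7 := hrk _ h4
    rw [h3] at h7
    rw [← show rk M ({a, b, v} : Finset (Fin d → ZMod 3)) = 3 by rw [h7]; norm_num]
    refine rk_mono hfin ?_
    intro x hx
    simp only [Finset.coe_insert, Finset.coe_singleton, mem_insert_iff, mem_singleton_iff] at hx
    simp only [Finset.coe_insert, Finset.coe_singleton, mem_union, mem_insert_iff,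
      mem_singleton_iff]
    tauto
  have key := card_lines_le (Λ := {s : Finset (Fin d → ZMod 3) // IsLine s}) hexpr
    (fun l => l.1) (rk_empty M) (rk_nonneg M) ?_ ?_ ?_ ?_ ?_ ?_
  · rw [Fintype.card_fun, ZMod.card, Fintype.card_fin] at key
    have h1 := many_lines d
    have h2 : 9 * Fintype.card {s : Finset (Fin d → ZMod 3) // IsLine s} ≤ 9 * (c * 3 ^ d) :=
      Nat.mul_le_mul_left 9 key
    have h3 : 3 ^ d * 3 ^ d ≤ 9 * (c * 3 ^ d) + 3 ^ d := by omega
    have h4 : 0 < 3 ^ d := by positivity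
    have h5 : 3 ^ d * 3 ^ d ≤ (9 * c + 1) * 3 ^ d := by linarith
    have h6 := Nat.le_of_mul_le_mul_right h5 h4
    omega
  · intro v
    have := hsmall {v} (by simp)
    simpa using this
  · intro u v huv
    have := hsmall {u, v} (Finset.card_le_two)
    rw [Finset.card_pair huv] at this
    simpa using this
  · intro l; exact isLine_card l.2
  · intro l
    obtain ⟨s, hs⟩ := l
    show rk M s = 2
    obtain ⟨a, b, c', hab, hac, hbc, hsum, rfl⟩ := id hs
    apply le_antisymm
    · have h1 : ¬ M.Indep ({a, b, c'} : Finset (Fin d → ZMod 3)) := fun h => ((hI' _).1 h).2 hs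
      rw [indep_iff_rk hfin (by rw [hE]; exact subset_univ _), Set.ncard_coe_finset,
        isLine_card hs] at h1
      push_cast at h1
      have : rk M (({a, b, c'} : Finset (Fin d → ZMod 3)) : Set (Fin d → ZMod 3)) < 3 := by
        push_cast
        omega
      omega
    · have h1 := hsmall {a, b} Finset.card_le_two
      rw [Finset.card_pair hab] at h1
      rw [← show rk M ({a, b} : Finset (Fin d → ZMod 3)) = 2 by rw [h1]; norm_num]
      refine rk_mono hfin ?_
      intro x hx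
      simp only [Finset.coe_insert, Finset.coe_singleton, mem_insert_iff, mem_singleton_iff] at hx ⊢
      tauto
  · intro l v hv; exact hlv l.1 l.2 v hv
  · intro l l' hne v hv hv'
    have hne' : l.1 ≠ l'.1 := fun h => hne (Subtype.ext h)
    have hint : ∀ w, w ∈ l.1 → w ∈ l'.1 → w = v := by
      intro w hw hw'
      by_contra hwv
      exact hne' ((isLine_eq l.2 hw hv hwv).trans (isLine_eq l'.2 hw' hv' hwv).symm)
    constructor
    · refine le_antisymm (hle3 _) ?_
      obtain ⟨w, hw, hwv⟩ : ∃ w ∈ l'.1, w ≠ v := by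
        by_contra hcon
        push Not at hcon
        have h1 : l'.1 ⊆ {v} := fun w hw => by rw [Finset.mem_singleton]; exact hcon w hw
        have h2 := Finset.card_le_card h1
        rw [isLine_card l'.2, Finset.card_singleton] at h2
        omega
      have hwl : w ∉ l.1 := fun h => hwv (hint w h hw)
      rw [← hlv l.1 l.2 w hwl]
      refine rk_mono hfin (union_subset_union_right _ ?_)
      rw [singleton_subset_iff]; exact hw
    · ext w
      rw [mem_inter_iff, mem_singleton_iff]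
      constructor
      · rintro ⟨h1, h2⟩; exact hint w h1 h2
      · rintro rfl; exact ⟨hv, hv'⟩

end zeroSum

/-! ### The main theorem -/

theorem sbo_bo {α : Type} {M : Matroid α} (h : SBO α M) : BO α M := by
  refine ⟨h.1, fun B₁ B₂ h1 h2 => ?_⟩
  obtain ⟨φ, hφ, h3⟩ := h.2 B₁ B₂ h1 h2
  exact ⟨φ, hφ, fun X hX _ => h3 X hX⟩

/-- For every finite family of finite matroids there is a strongly base-orderable matroid outside
the complete class it generates. -/
theorem exists_sbo_not_generated (k : ℕ) (β : Fin k → Type) (F : ∀ i, Matroid (β i))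
    (hF : ∀ i, (F i).E.Finite) :
    ∃ (α : Type) (M : Matroid α), SBO α M ∧ ¬ Generated F α M := by
  set c : ℕ := 2 + ∑ i, (F i).E.ncard with hc
  obtain ⟨M, hE, hI, hsbo⟩ := exists_zeroSum_matroid (9 * c + 2)
  refine ⟨_, M, hsbo, fun hgen => ?_⟩
  have h1 := hgen (ExprClass c) (exprClass_complete (by omega)) (fun i => ⟨hF i, Expr.small (hF i) ?_⟩)
  · refine not_expr hE hI ?_ h1.2
    have : 9 * c + 2 < 3 ^ (9 * c + 2) := Nat.lt_pow_self (by norm_num)
    omega
  · have := Finset.single_le_sum (f := fun i => (F i).E.ncard) (fun i _ => Nat.zero_le _)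
      (Finset.mem_univ i)
    omega

end Pool.Agent.Helper616.FG
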